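import Mathlib

set_option autoImplicit false
set_option linter.unusedSectionVars false
open Filter Topology Finset

namespace Pool.Agent.H.MP_cd93fa_pr

/-- Probability that the endpoint with mass `a` wins against mass `b`. -/
noncomputable def ph (α a b : ℝ) : ℝ := a ^ α / (a ^ α + b ^ α)

lemma ph_nonneg (α : ℝ) {a b : ℝ} (ha : 0 ≤ a) (hb : 0 ≤ b) : 0 ≤ ph α a b := by
  unfold ph; positivity

lemma den_pos (α : ℝ) {a b : ℝ} (ha : 0 ≤ a) (hb : 0 ≤ b) (h : 0 < a + b) : 0 < a ^ α + b ^ α := by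
  rcases ha.eq_or_lt with h1 | h1
  · have : 0 < b := by linarith
    positivity
  · positivity

lemma ph_add (α : ℝ) {a b : ℝ} (ha : 0 ≤ a) (hb : 0 ≤ b) (h : 0 < a + b) :
    ph α a b + ph α b a = 1 := by
  have := den_pos α ha hb h
  unfold ph
  rw [add_comm (b ^ α), ← add_div, div_self this.ne']

lemma ph_le (α : ℝ) {a b : ℝ} (ha : 0 ≤ a) (hb : 0 < b) : ph α a b ≤ a ^ α / b ^ α :=
  div_le_div_of_nonneg_left (by positivity) (by positivity) (le_add_of_nonneg_left (by positivity))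

lemma ph_le_sq {α a b c : ℝ} (hα : 2 ≤ α) (ha : 0 ≤ a) (hb : 0 ≤ b) (hc : 0 < c) (h : c ≤ a + b) :
    ph α a b ≤ (2 * a / c) ^ 2 := by
  by_cases h1 : c ≤ 2 * a
  · have h2 := ph_add α ha hb (by linarith)
    have h3 := ph_nonneg α hb ha
    have h4 : 1 ≤ 2 * a / c := (one_le_div hc).2 h1
    nlinarith
  · push Not at h1
    have hb0 : 0 < b := by linarith
    refine (ph_le α ha hb0).trans ?_
    rw [← Real.div_rpow ha hb0.le]
    have h2 : a / b ≤ 2 * a / c := by
      rw [div_le_div_iff₀ hb0 hc]; nlinarith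
    have h3 : 2 * a / c ≤ 1 := (div_le_one hc).2 h1.le
    calc _ ≤ (a / b) ^ (2 : ℝ) :=
          Real.rpow_le_rpow_of_exponent_ge' (by positivity) (h2.trans h3) (by norm_num) hα
      _ = (a / b) ^ 2 := by norm_num
      _ ≤ _ := pow_le_pow_left₀ (by positivity) h2 2

lemma ph_scale (α : ℝ) {a b c : ℝ} (ha : 0 ≤ a) (hb : 0 ≤ b) (hc : 0 < c) :
    ph α (a / c) (b / c) = ph α a b := by
  unfold ph
  have : 0 < c ^ α := by positivity
  rw [Real.div_rpow ha hc.le, Real.div_rpow hb hc.le, ← add_div, div_div_div_cancel_right₀ this.ne']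

variable {V E : Type*} [Fintype V] [DecidableEq V] [Fintype E] [DecidableEq E] (s t : E → V)

/-- Indicator of the vertex `a`. -/
def de (a i : V) : ℝ := if i = a then 1 else 0

/-- Law of the winner of the edge `e`. -/
noncomputable def pe (α : ℝ) (x : V → ℝ) (e : E) (i : V) : ℝ :=
  ph α (x (s e)) (x (t e)) * de (s e) i + ph α (x (t e)) (x (s e)) * de (t e) i

/-- Mean number of balls received. -/
noncomputable def g (α : ℝ) (x : V → ℝ) (i : V) : ℝ := ∑ e, pe s t α x e i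

lemma sum_de (a : V) (f : V → ℝ) : ∑ i, de a i * f i = f a := by simp [de]

lemma sum_pe (α : ℝ) (x : V → ℝ) (e : E) (f : V → ℝ) : ∑ i, pe s t α x e i * f i =
    ph α (x (s e)) (x (t e)) * f (s e) + ph α (x (t e)) (x (s e)) * f (t e) := by
  simp only [pe, add_mul, mul_assoc, sum_add_distrib, ← mul_sum, sum_de]

lemma sum_g (α : ℝ) (x : V → ℝ) (f : V → ℝ) : ∑ i, g s t α x i * f i =
    ∑ e, (ph α (x (s e)) (x (t e)) * f (s e) + ph α (x (t e)) (x (s e)) * f (t e)) := by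
  simp only [g, sum_mul]
  rw [sum_comm]
  exact sum_congr rfl fun e _ => sum_pe s t α x e f

lemma pe_nonneg (α : ℝ) {x : V → ℝ} (hx : ∀ i, 0 ≤ x i) (e : E) (i : V) : 0 ≤ pe s t α x e i := by
  have h1 := ph_nonneg α (hx (s e)) (hx (t e))
  have h2 := ph_nonneg α (hx (t e)) (hx (s e))
  unfold pe de
  split_ifs <;> positivity

lemma g_le {α c : ℝ} (hst : ∀ e, s e ≠ t e) (hα : 2 ≤ α) {x : V → ℝ} (hx : ∀ i, 0 ≤ x i)
    (hc : 0 < c) (h : ∀ e, c ≤ x (s e) + x (t e)) (i : V) :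
    g s t α x i ≤ Fintype.card E * (2 * x i / c) ^ 2 := by
  rw [← nsmul_eq_mul]
  refine sum_le_card_nsmul _ _ _ fun e _ => ?_
  unfold pe de
  split_ifs with h1 h2 h2
  · exact absurd (h1.symm.trans h2) (hst e)
  · simpa [h1] using ph_le_sq hα (hx _) (hx _) hc (h e)
  · simpa [h2] using ph_le_sq hα (hx _) (hx _) hc (by rw [add_comm]; exact h e)
  · simp; positivity

/-- Derivative of the winning probability. -/
noncomputable def dP (α : ℝ) (v : V → ℝ) (a b : V) : (V → ℝ) →L[ℝ] ℝ :=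
  (α * ph α (v a) (v b) * ph α (v b) (v a)) •
    ((v a)⁻¹ • ContinuousLinearMap.proj a - (v b)⁻¹ • ContinuousLinearMap.proj b)

lemma ph_deriv {α : ℝ} (hα : 2 ≤ α) {v : V → ℝ} (hv : ∀ i, 0 ≤ v i) {a b : V}
    (h : 0 < v a + v b) : HasStrictFDerivAt (fun x : V → ℝ => ph α (x a) (x b)) (dP α v a b) v := by
  have d : ∀ c : V, HasStrictFDerivAt (fun x : V → ℝ => x c ^ α)
      ((α * (v c ^ α * (v c)⁻¹)) • (ContinuousLinearMap.proj c : (V → ℝ) →L[ℝ] ℝ)) v := fun c => by
    have h1 := (Real.hasStrictDerivAt_rpow_const (x := v c) (p := α)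
      (Or.inr (by linarith))).comp_hasStrictFDerivAt v (hasStrictFDerivAt_apply (𝕜 := ℝ) c v)
    have e : v c ^ (α - 1) = v c ^ α * (v c)⁻¹ := by
      rcases (hv c).eq_or_lt with h2 | h2
      · rw [← h2, Real.zero_rpow (by linarith), inv_zero, mul_zero]
      · rw [Real.rpow_sub_one h2.ne', div_eq_mul_inv]
    rwa [e] at h1
  have hd := den_pos α (hv a) (hv b) h
  have h2 := (d a).mul ((hasStrictDerivAt_inv hd.ne').comp_hasStrictFDerivAt v ((d a).add (d b)))
  refine (h2.congr_fderiv ?_).congr_of_eventuallyEq (Eventually.of_forall fun x => ?_)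
  · ext z
    simp only [dP, ph, add_comm (v b ^ α), ContinuousLinearMap.add_apply,
      ContinuousLinearMap.smul_apply, ContinuousLinearMap.sub_apply, ContinuousLinearMap.proj_apply,
      smul_eq_mul, Function.comp_apply, Pi.add_apply]
    generalize (v a)⁻¹ = ia
    generalize (v b)⁻¹ = ib
    field_simp
    ring
  · simp [ph, div_eq_mul_inv]

/-- Edge weight in the linearised field. -/
noncomputable def wt (α : ℝ) (v : V → ℝ) (e : E) : ℝ :=
  α * ph α (v (s e)) (v (t e)) * ph α (v (t e)) (v (s e))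

/-- Derivative of the mean field. -/
noncomputable def Ah (α : ℝ) (v : V → ℝ) : (V → ℝ) →L[ℝ] (V → ℝ) :=
  ContinuousLinearMap.pi fun i => ∑ e,
    (de (s e) i • dP α v (s e) (t e) + de (t e) i • dP α v (t e) (s e))

lemma Ah_apply (α : ℝ) (v z : V → ℝ) (i : V) : Ah s t α v z i =
    ∑ e, wt s t α v e * (z (s e) / v (s e) - z (t e) / v (t e)) * (de (s e) i - de (t e) i) := by
  simp only [Ah, ContinuousLinearMap.pi_apply, ContinuousLinearMap.sum_apply, dP, wt,
    ContinuousLinearMap.add_apply, ContinuousLinearMap.smul_apply, ContinuousLinearMap.sub_apply,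
    ContinuousLinearMap.proj_apply, smul_eq_mul, div_eq_mul_inv]
  exact sum_congr rfl fun e _ => by ring

lemma sum_Ah (α : ℝ) (v z f : V → ℝ) : ∑ i, Ah s t α v z i * f i =
    ∑ e, wt s t α v e * (z (s e) / v (s e) - z (t e) / v (t e)) * (f (s e) - f (t e)) := by
  simp only [Ah_apply, sum_mul]
  rw [sum_comm]
  refine sum_congr rfl fun e _ => ?_
  simp only [mul_assoc, ← mul_sum, sub_mul (de _ _), sum_sub_distrib, sum_de]

lemma g_deriv {α : ℝ} (hα : 2 ≤ α) {v : V → ℝ} (hv : ∀ i, 0 ≤ v i)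
    (h : ∀ e, 0 < v (s e) + v (t e)) : HasStrictFDerivAt (g s t α) (Ah s t α v) v := by
  refine hasStrictFDerivAt_pi.2 fun i => HasStrictFDerivAt.fun_sum fun e _ => ?_
  have h1 := ((ph_deriv hα hv (h e)).const_smul (de (s e) i)).add
    ((ph_deriv hα hv (by rw [add_comm]; exact h e)).const_smul (de (t e) i))
  refine h1.congr_of_eventuallyEq (Eventually.of_forall fun x => ?_)
  simp [pe, mul_comm]

/-- Expected number of cut edges won by the lower side. -/
noncomputable def ep (α : ℝ) (v : V → ℝ) (U : Finset V) : ℝ :=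
  ∑ e, if s e ∈ U then (if t e ∈ U then 0 else ph α (v (t e)) (v (s e)))
    else (if t e ∈ U then ph α (v (s e)) (v (t e)) else 0)

lemma mass {α : ℝ} {v : V → ℝ} (hv : ∀ i, 0 ≤ v i) (h : ∀ e, 0 < v (s e) + v (t e))
    (U : Finset V) : ∃ a : ℕ, ∑ i ∈ U, g s t α v i = a - ep s t α v U := by
  refine ⟨∑ e, if s e ∈ U ∨ t e ∈ U then 1 else 0, ?_⟩
  have h1 := sum_g s t α v fun i => if i ∈ U then 1 else 0
  simp only [mul_ite, mul_one, mul_zero, sum_ite_mem, univ_inter] at h1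
  rw [h1, ep, Nat.cast_sum, ← sum_sub_distrib]
  refine sum_congr rfl fun e _ => ?_
  have := ph_add α (hv _) (hv _) (h e)
  by_cases h2 : s e ∈ U <;> by_cases h3 : t e ∈ U <;> simp [h2, h3] <;> linarith

lemma ep_le {α τ : ℝ} {v : V → ℝ} (U : Finset V) (hτ : 0 ≤ τ)
    (h : ∀ a ∈ U, ∀ b ∉ U, ph α (v b) (v a) ≤ τ) : ep s t α v U ≤ Fintype.card E * τ := by
  rw [← nsmul_eq_mul]
  refine sum_le_card_nsmul _ _ _ fun e _ => ?_
  split_ifs with h1 h2 h2
  exacts [hτ, h _ h1 _ h2, h _ h2 _ h1, hτ]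

lemma le_ep {α : ℝ} {v : V → ℝ} (hv : ∀ i, 0 ≤ v i) (U : Finset V) (e : E) :
    (if s e ∈ U then (if t e ∈ U then 0 else ph α (v (t e)) (v (s e)))
      else (if t e ∈ U then ph α (v (s e)) (v (t e)) else 0)) ≤ ep s t α v U := by
  refine single_le_sum (f := fun e => if s e ∈ U then (if t e ∈ U then 0 else
    ph α (v (t e)) (v (s e))) else (if t e ∈ U then ph α (v (s e)) (v (t e)) else 0))
    (fun e _ => ?_) (mem_univ e)
  have h1 := ph_nonneg α (hv (s e)) (hv (t e))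
  have h2 := ph_nonneg α (hv (t e)) (hv (s e))
  split_ifs <;> first | assumption | rfl

/-- Upper sets for the order of the masses. -/
def Up (v : V → ℝ) (U : Finset V) : Prop := ∀ i ∈ U, ∀ j, v i ≤ v j → j ∈ U

lemma Up.lt {v : V → ℝ} {U : Finset V} (h : Up v U) {i j : V} (hi : i ∈ U) (hj : j ∉ U) :
    v j < v i := not_le.1 fun h1 => hj (h i hi j h1)

lemma Up.total {v : V → ℝ} {U W : Finset V} (h : Up v U) (h' : Up v W) : U ⊆ W ∨ W ⊆ U := by
  by_contra hc
  push Not at hc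
  obtain ⟨i, hi, hi'⟩ := not_subset.1 hc.1
  obtain ⟨j, hj, hj'⟩ := not_subset.1 hc.2
  exact lt_asymm (h.lt hi hj') (h'.lt hj hi')

lemma spread {α η Q : ℝ} (hα : 0 < α) {v : V → ℝ} (hv : ∀ i, 0 ≤ v i) (hQ : 1 ≤ Q)
    (hη : Fintype.card E * Q⁻¹ ≤ η) {U0 : Finset V} (h0 : Up v U0) (k : ℕ) : ∀ j : V,
    (univ.filter fun i => v j < v i).card ≤ k →
    (∀ U, Up v U → U0 ⊂ U → (∀ i ∈ U, v j < v i) → η < ep s t α v U) →
    ∀ i ∉ U0, v i ^ α ≤ Q ^ k * v j ^ α := by
  have mono : ∀ i j, v i ≤ v j → ∀ k : ℕ, v i ^ α ≤ Q ^ k * v j ^ α := fun i j h k =>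
    (Real.rpow_le_rpow (hv i) h hα.le).trans
      (le_mul_of_one_le_left (Real.rpow_nonneg (hv j) _) (one_le_pow₀ hQ))
  induction k with
  | zero =>
    intro j hk _ i _
    refine mono i j (not_lt.1 fun h => ?_) 0
    have : 0 < (univ.filter fun i => v j < v i).card :=
      card_pos.2 ⟨i, mem_filter.2 ⟨mem_univ i, h⟩⟩
    omega
  | succ k ih =>
    intro j hk hU i hi
    by_cases hij : v i ≤ v j
    · exact mono i j hij _
    push Not at hij
    set U := univ.filter fun i => v j < v i with hUd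
    have hm : ∀ i, i ∈ U ↔ v j < v i := fun i => by simp [hUd]
    have hup : Up v U := fun a ha b hab => (hm b).2 (((hm a).1 ha).trans_le hab)
    have hss : U0 ⊂ U := by
      refine Finset.ssubset_iff_subset_ne.2 ⟨fun a ha => (hm a).2 (hij.trans (h0.lt ha hi)), ?_⟩
      rintro rfl
      exact hi ((hm i).2 hij)
    have h1 := hU U hup hss fun a ha => (hm a).1 ha
    obtain ⟨a, ha, b, hb, hab⟩ : ∃ a ∈ U, ∃ b ∉ U, Q⁻¹ < ph α (v b) (v a) := by
      by_contra hc
      push Not at hc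
      exact absurd ((ep_le s t U (by positivity) hc).trans hη) (not_le.2 h1)
    have ha0 : 0 < v a := (hv j).trans_lt ((hm a).1 ha)
    have h2 := hab.trans_le (ph_le α (hv b) ha0)
    rw [lt_div_iff₀ (by positivity), inv_mul_lt_iff₀ (by positivity)] at h2
    have h3 : v b ^ α ≤ v j ^ α := Real.rpow_le_rpow (hv b) (not_lt.1 fun h => hb ((hm b).2 h)) hα.le
    have h4 := ih a (by
      refine Nat.le_of_lt_succ (lt_of_lt_of_le (card_lt_card ?_) hk)
      refine Finset.ssubset_iff_subset_ne.2 ⟨fun c hc => (hm c).2 (((hm a).1 ha).trans (mem_filter.1 hc).2),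
        fun h => ?_⟩
      rw [← h] at ha
      simp at ha) (fun W h5 h6 h7 => hU W h5 h6 fun c hc => ((hm a).1 ha).trans (h7 c hc)) i hi
    have h5 : v a ^ α ≤ Q * v j ^ α := h2.le.trans (mul_le_mul_of_nonneg_left h3 (by positivity))
    calc _ ≤ Q ^ k * (Q * v j ^ α) := h4.trans (mul_le_mul_of_nonneg_left h5 (by positivity))
      _ = _ := by ring

lemma small_cut {α η Q R : ℝ} (hα : 0 < α) {v : V → ℝ} (hv : ∀ i, 0 ≤ v i) (hQ : 1 ≤ Q)
    (hη : Fintype.card E * Q⁻¹ ≤ η) (h : ∀ e, 0 < v (s e) + v (t e)) (hs : ∑ i, v i = 1)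
    (heq : ∀ i, g s t α v i = Fintype.card E * v i) (hR : 1 < R)
    (hR3 : (R ^ 3 - 1) * (Fintype.card V * Fintype.card E) + 2 * Fintype.card V * η < 1)
    (hRQ : Q ^ Fintype.card V ≤ R ^ α) (hN : 0 < Fintype.card E) :
    ∀ U, Up v U → ep s t α v U ≤ η → ep s t α v U ≤ Fintype.card E * (R ^ α)⁻¹ := by
  classical
  set F := (univ : Finset (Finset V)).filter fun U => Up v U ∧ ep s t α v U ≤ η with hF
  have mF : ∀ U, U ∈ F ↔ Up v U ∧ ep s t α v U ≤ η := fun U => by simp [hF]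
  have hη0 : 0 ≤ η := le_trans (by positivity) hη
  have e0 : ep s t α v ∅ = 0 := by simp [ep]
  have e1 : ep s t α v univ = 0 := by simp [ep]
  have m0 : ∅ ∈ F := (mF _).2 ⟨fun i hi => by simp at hi, by rwa [e0]⟩
  have m1 : univ ∈ F := (mF _).2 ⟨fun _ _ _ _ => mem_univ _, by rwa [e1]⟩
  obtain ⟨U1, hU1, hmax⟩ := exists_max_image F (ep s t α v) ⟨_, m0⟩
  intro U hU hUη
  refine (hmax U ((mF U).2 ⟨hU, hUη⟩)).trans (not_lt.1 fun hbig => ?_)
  have hpos : 0 < ep s t α v U1 := lt_of_le_of_lt (by positivity) hbig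
  obtain ⟨up1, sm1⟩ := (mF _).1 hU1
  obtain ⟨U0, hU0, max0⟩ := exists_max_image (F.filter (· ⊂ U1)) card
    ⟨∅, mem_filter.2 ⟨m0, empty_ssubset.2 (nonempty_iff_ne_empty.2 fun h1 => by
      rw [h1, e0] at hpos; exact lt_irrefl _ hpos)⟩⟩
  obtain ⟨U2, hU2, min2⟩ := exists_min_image (F.filter (U1 ⊂ ·)) card
    ⟨univ, mem_filter.2 ⟨m1, ssubset_univ_iff.2 fun h1 => by
      rw [h1, e1] at hpos; exact lt_irrefl _ hpos⟩⟩
  obtain ⟨hU0, s01⟩ := mem_filter.1 hU0
  obtain ⟨hU2, s12⟩ := mem_filter.1 hU2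
  obtain ⟨up0, sm0⟩ := (mF _).1 hU0
  obtain ⟨up2, sm2⟩ := (mF _).1 hU2
  have conv : ∀ i j, v i ^ α ≤ Q ^ Fintype.card V * v j ^ α → v i ≤ R * v j := fun i j h1 => by
    have h2 := h1.trans (mul_le_mul_of_nonneg_right hRQ (Real.rpow_nonneg (hv j) _))
    rw [← Real.mul_rpow (by positivity) (hv j)] at h2
    exact (Real.rpow_le_rpow_iff (hv i) (mul_nonneg (by positivity) (hv j)) hα).1 h2
  have lt_of : ∀ {W W' : Finset V} {j : V}, Up v W → Up v W' → j ∈ W' → (∀ i ∈ W, v j < v i) →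
      W ⊂ W' := fun {W W' j} h1 h2 h3 h4 => Finset.ssubset_iff_subset_ne.2
    ⟨fun a ha => h2 j h3 a (h4 a ha).le, fun h5 => lt_irrefl _ (h4 j (h5 ▸ h3))⟩
  have sp1 : ∀ j ∈ U1, ∀ i ∉ U0, v i ≤ R * v j := fun j hj i hi => conv i j
    (spread s t hα hv hQ hη up0 _ j (card_le_univ _) (fun W h1 h2 h3 => not_le.1 fun h4 =>
      absurd (max0 W (mem_filter.2 ⟨(mF W).2 ⟨h1, h4⟩, lt_of h1 up1 hj h3⟩))
        (not_le.2 (card_lt_card h2))) i hi)
  have sp2 : ∀ j ∈ U2, ∀ i ∉ U1, v i ≤ R * v j := fun j hj i hi => conv i j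
    (spread s t hα hv hQ hη up1 _ j (card_le_univ _) (fun W h1 h2 h3 => not_le.1 fun h4 =>
      absurd (min2 W (mem_filter.2 ⟨(mF W).2 ⟨h1, h4⟩, h2⟩))
        (not_le.2 (card_lt_card (lt_of h1 up2 hj h3)))) i hi)
  obtain ⟨a, ha, b, hb, hab⟩ : ∃ a ∈ U1, ∃ b ∉ U1, v a ≤ R * v b := by
    by_contra hc
    push Not at hc
    refine absurd (ep_le s t U1 (by positivity) fun a ha b hb => ?_) (not_le.2 hbig)
    have h1 := hc a ha b hb
    have h2 : 0 < v a := lt_of_le_of_lt (mul_nonneg (by positivity) (hv b)) h1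
    refine (ph_le α (hv b) h2).trans ?_
    have h3 := Real.rpow_le_rpow (mul_nonneg (by positivity) (hv b)) h1.le hα.le
    rw [Real.mul_rpow (by positivity) (hv b)] at h3
    rw [div_le_iff₀ (by positivity), le_inv_mul_iff₀ (by positivity)]
    exact h3
  have cmp : ∀ i ∈ U1 \ U0, ∀ j ∈ U2 \ U1, v j < v i ∧ v i ≤ R ^ 3 * v j := fun i hi j hj => by
    obtain ⟨i1, i0⟩ := mem_sdiff.1 hi
    obtain ⟨j2, j1⟩ := mem_sdiff.1 hj
    refine ⟨up1.lt i1 j1, ?_⟩
    have h1 := sp1 a ha i i0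
    have h2 := mul_le_mul_of_nonneg_left hab (show 0 ≤ R by positivity)
    have h3 := mul_le_mul_of_nonneg_left (sp2 j j2 b hb) (show 0 ≤ R * R by positivity)
    nlinarith
  obtain ⟨a0, q0⟩ := mass s t (α := α) hv h U0
  obtain ⟨a1, q1⟩ := mass s t (α := α) hv h U1
  obtain ⟨a2, q2⟩ := mass s t (α := α) hv h U2
  simp only [heq, ← mul_sum] at q0 q1 q2
  have d1 := sum_sdiff (f := v) s01.subset
  have d2 := sum_sdiff (f := v) s12.subset
  have ne1 : (U1 \ U0).Nonempty := sdiff_nonempty.2 s01.not_subset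
  have ne2 : (U2 \ U1).Nonempty := sdiff_nonempty.2 s12.not_subset
  have c1 : ∑ i ∈ U1 \ U0, ∑ j ∈ U2 \ U1, v j < ∑ i ∈ U1 \ U0, ∑ j ∈ U2 \ U1, v i :=
    sum_lt_sum_of_nonempty ne1 fun i hi => sum_lt_sum_of_nonempty ne2 fun j hj => (cmp i hi j hj).1
  have c2 : ∑ i ∈ U1 \ U0, ∑ j ∈ U2 \ U1, v i ≤ ∑ i ∈ U1 \ U0, ∑ j ∈ U2 \ U1, R ^ 3 * v j :=
    sum_le_sum fun i hi => sum_le_sum fun j hj => (cmp i hi j hj).2
  simp only [sum_const, nsmul_eq_mul, ← mul_sum] at c1 c2
  have b2 : ∑ j ∈ U2 \ U1, v j ≤ 1 := hs ▸ sum_le_sum_of_subset_of_nonneg (subset_univ _)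
    fun i _ _ => hv i
  have b3 : 0 ≤ ∑ j ∈ U2 \ U1, v j := sum_nonneg fun i _ => hv i
  have n1 : ((U1 \ U0).card : ℝ) ≤ Fintype.card V := by exact_mod_cast card_le_univ _
  have n2 : ((U2 \ U1).card : ℝ) ≤ Fintype.card V := by exact_mod_cast card_le_univ _
  have x0 := hmax U0 hU0
  have x2 := hmax U2 hU2
  have y0 : 0 ≤ ep s t α v U0 := sum_nonneg fun e _ => by
    have h1 := ph_nonneg α (hv (s e)) (hv (t e))
    have h2 := ph_nonneg α (hv (t e)) (hv (s e))
    split_ifs <;> first | assumption | rfl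
  have y2 : 0 ≤ ep s t α v U2 := sum_nonneg fun e _ => by
    have h1 := ph_nonneg α (hv (s e)) (hv (t e))
    have h2 := ph_nonneg α (hv (t e)) (hv (s e))
    split_ifs <;> first | assumption | rfl
  set M1 := ∑ i ∈ U1 \ U0, v i
  set M2 := ∑ j ∈ U2 \ U1, v j
  set k1 := (U1 \ U0).card
  set k2 := (U2 \ U1).card
  set N : ℝ := (Fintype.card E : ℝ)
  set m : ℝ := (Fintype.card V : ℝ)
  have hN' : 0 < N := Nat.cast_pos.2 hN
  have key : ((k2 * ((a1 : ℤ) - a0) - k1 * ((a2 : ℤ) - a1) : ℤ) : ℝ) = N * (k2 * M1 - k1 * M2) +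
      k2 * (ep s t α v U1 - ep s t α v U0) + k1 * (ep s t α v U1 - ep s t α v U2) := by
    push_cast
    linear_combination (-(k2 : ℝ) - k1) * q1 + k2 * q0 + k1 * q2 - N * k2 * d1 + N * k1 * d2
  have k10 : (0 : ℝ) ≤ k1 := Nat.cast_nonneg _
  have k20 : (0 : ℝ) ≤ k2 := Nat.cast_nonneg _
  have z1 := mul_nonneg k20 (sub_nonneg.2 x0)
  have z2 := mul_nonneg k10 (sub_nonneg.2 x2)
  have z3 := mul_pos hN' (sub_pos.2 c1)
  have z4 : (0 : ℤ) < k2 * ((a1 : ℤ) - a0) - k1 * ((a2 : ℤ) - a1) := by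
    have : (0 : ℝ) < ((k2 * ((a1 : ℤ) - a0) - k1 * ((a2 : ℤ) - a1) : ℤ) : ℝ) := by
      rw [key]; linarith
    exact_mod_cast this
  have z5 : (1 : ℝ) ≤ ((k2 * ((a1 : ℤ) - a0) - k1 * ((a2 : ℤ) - a1) : ℤ) : ℝ) := by
    exact_mod_cast z4
  have z6 := mul_le_mul n2 (show ep s t α v U1 - ep s t α v U0 ≤ η by linarith) (sub_nonneg.2 x0)
    (k20.trans n2)
  have z7 := mul_le_mul n1 (show ep s t α v U1 - ep s t α v U2 ≤ η by linarith) (sub_nonneg.2 x2)
    (k20.trans n2)
  have z8 : k1 * M2 ≤ m * 1 := mul_le_mul n1 b2 b3 (k20.trans n2)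
  have z9 : 0 ≤ R ^ 3 - 1 := sub_nonneg.2 (one_le_pow₀ hR.le)
  have z10 := mul_le_mul_of_nonneg_left z8 (mul_nonneg hN'.le z9)
  have z11 := mul_le_mul_of_nonneg_left c2 hN'.le
  rw [key] at z5
  nlinarith

lemma dich {α η Q τ : ℝ} (hα : 0 < α) {v : V → ℝ} (hv : ∀ i, 0 ≤ v i) (hQ : 1 ≤ Q)
    (hη : Fintype.card E * Q⁻¹ ≤ η) (hsm : ∀ U, Up v U → ep s t α v U ≤ η → ep s t α v U ≤ τ)
    {a b : V} (hab : v b ≤ v a) (h : 0 < v a + v b)
    (hle : ∀ U, a ∈ U → b ∉ U → ph α (v b) (v a) ≤ ep s t α v U) :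
    ph α (v a) (v b) * ph α (v b) (v a) ≤ τ ∨
      ((1 + Q ^ Fintype.card V) ^ 2)⁻¹ ≤ ph α (v a) (v b) * ph α (v b) (v a) := by
  have h1 := ph_add α (hv a) (hv b) h
  have h2 := ph_nonneg α (hv a) (hv b)
  have h3 := ph_nonneg α (hv b) (hv a)
  by_cases hc : ∃ U, Up v U ∧ ep s t α v U ≤ η ∧ a ∈ U ∧ b ∉ U
  · obtain ⟨U, u1, u2, u3, u4⟩ := hc
    have := (hle U u3 u4).trans (hsm U u1 u2)
    left; nlinarith
  right
  push Not at hc
  have h4 := spread s t hα hv hQ hη (U0 := univ.filter fun i => v a < v i)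
    (fun i hi j hij => mem_filter.2 ⟨mem_univ _, (mem_filter.1 hi).2.trans_le hij⟩) _ b
    (card_le_univ _) (fun U u1 u2 u3 => not_le.1 fun u4 => by
      obtain ⟨i, i1, i2⟩ := exists_of_ssubset u2
      exact lt_irrefl _ (u3 b (hc U u1 u4 (u1 i i1 a (by simpa using i2))))) a (by simp)
  have h5 := Real.rpow_le_rpow (hv b) hab hα.le
  have h6 := den_pos α (hv b) (hv a) (by linarith)
  have h7 : 1 ≤ Q ^ Fintype.card V := one_le_pow₀ hQ
  have h8 : (1 + Q ^ Fintype.card V)⁻¹ ≤ ph α (v b) (v a) := by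
    rw [ph, le_div_iff₀ h6, inv_mul_le_iff₀ (by positivity)]; linarith
  have h9 : ph α (v b) (v a) ≤ ph α (v a) (v b) := by
    rw [ph, ph, add_comm (v a ^ α)]; exact div_le_div_of_nonneg_right h5 h6.le
  rw [← inv_pow, pow_two]
  exact mul_le_mul (h8.trans h9) h8 (by positivity) h2

lemma wt_nonneg {α : ℝ} (hα : 0 ≤ α) {v : V → ℝ} (hv : ∀ i, 0 ≤ v i) (e : E) :
    0 ≤ wt s t α v e :=
  mul_nonneg (mul_nonneg hα (ph_nonneg α (hv _) (hv _))) (ph_nonneg α (hv _) (hv _))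

lemma inj {α W τ c : ℝ} (hα : 0 < α) {v : V → ℝ} (hv : ∀ i, 0 ≤ v i) (hs : ∑ i, v i = 1)
    (hd : ∀ e, W ≤ wt s t α v e ∨ wt s t α v e ≤ τ) (hc : ∀ i, v i ≠ 0 → c ≤ v i)
    (hW : 4 * (Fintype.card V : ℝ) ^ 2 * Fintype.card E < W) (hτ : 4 * τ < c) (hτ0 : 0 ≤ τ)
    (hN : 0 < Fintype.card E) (z : V → ℝ) (hz : ∀ i, Ah s t α v z i = Fintype.card E * z i) :
    z = 0 := by
  have hN' : (0 : ℝ) < Fintype.card E := Nat.cast_pos.2 hN
  have zv : ∀ i, z i = v i * (z i / v i) := fun i => by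
    by_cases h0 : v i = 0
    · have h1 := hz i
      rw [Ah_apply, sum_eq_zero] at h1
      · rw [h0, zero_mul]; exact (mul_eq_zero.1 h1.symm).resolve_left hN'.ne'
      intro e _
      by_cases h2 : i = s e
      · simp [wt, ph, ← h2, h0, Real.zero_rpow hα.ne']
      by_cases h3 : i = t e
      · simp [wt, ph, ← h3, h0, Real.zero_rpow hα.ne']
      · simp [de, h2, h3]
    · field_simp
  have main : ∀ z : V → ℝ, (∀ i, Ah s t α v z i = Fintype.card E * z i) →
      (∀ i, z i = v i * (z i / v i)) → ∀ i0, (∀ i, |z i / v i| ≤ z i0 / v i0) →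
      z i0 / v i0 ≤ 0 := by
    intro z hz zv i0 hM
    by_contra hM0
    push Not at hM0
    set u := fun i => z i / v i with hu
    set M := z i0 / v i0 with hMd
    have hm : (0 : ℝ) < Fintype.card V := Nat.cast_pos.2 (Fintype.card_pos_iff.2 ⟨i0⟩)
    set m : ℝ := (Fintype.card V : ℝ) with hmd
    have en : ∑ e, wt s t α v e * (u (s e) - u (t e)) * (u (s e) - u (t e)) ≤
        Fintype.card E * M ^ 2 := by
      rw [← sum_Ah, ← mul_one (M ^ 2), ← hs, mul_sum, mul_sum]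
      refine sum_le_sum fun i _ => ?_
      rw [hz, zv i, mul_assoc]
      have h1 := mul_le_mul_of_nonneg_left (sq_le_sq' (abs_le.1 (hM i)).1 (abs_le.1 (hM i)).2) (hv i)
      refine mul_le_mul_of_nonneg_left ?_ hN'.le
      simp only [hu]; nlinarith
    have tie : ∀ e, W ≤ wt s t α v e → |u (s e) - u (t e)| ≤ M / (2 * m) := fun e he => by
      have h1 := (single_le_sum (f := fun e => wt s t α v e * (u (s e) - u (t e)) *
        (u (s e) - u (t e))) (fun e _ => by
          rw [mul_assoc]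
          exact mul_nonneg (wt_nonneg s t hα.le hv e) (mul_self_nonneg _)) (mem_univ e)).trans en
      refine abs_le_of_sq_le_sq' ?_ (by positivity) |> abs_le.2
      rw [div_pow, le_div_iff₀ (by positivity)]
      have h2 := mul_le_mul_of_nonneg_right (hW.le.trans he) (mul_self_nonneg (u (s e) - u (t e)))
      refine le_of_mul_le_mul_left ?_ hN'
      nlinarith
    set S := fun k : ℕ => univ.filter fun i => M - k * (M / (2 * m)) ≤ u i with hS
    have mS : ∀ k i, i ∈ S k ↔ M - k * (M / (2 * m)) ≤ u i := fun k i => by simp [hS]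
    have hp : 0 < M / (2 * m) := by positivity
    obtain ⟨k, hk, hSk⟩ : ∃ k < Fintype.card V, S (k + 1) ⊆ S k := by
      by_contra hcon
      push Not at hcon
      have h1 : ∀ k ≤ Fintype.card V, k < (S k).card := fun k hk => by
        induction k with
        | zero => exact card_pos.2 ⟨i0, (mS _ _).2 (by simp [hu, hMd])⟩
        | succ k ih =>
          refine lt_of_le_of_lt (ih (by omega)) (card_lt_card ⟨fun i hi => (mS _ _).2 ?_,
            hcon k (by omega)⟩)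
          have := (mS _ _).1 hi
          push_cast; linarith
      exact absurd (card_le_univ _) (not_le.2 (h1 _ le_rfl))
    have low : ∀ i ∈ S k, c * (M / 2) ≤ z i := fun i hi => by
      have h1 := (mS _ _).1 hi
      have h2 : (k : ℝ) * (M / (2 * m)) ≤ m * (M / (2 * m)) :=
        mul_le_mul_of_nonneg_right (by rw [hmd]; exact_mod_cast hk.le) hp.le
      have h3 : m * (M / (2 * m)) = M / 2 := by field_simp
      have h4 : M / 2 ≤ u i := by linarith
      have h5 : v i ≠ 0 := fun h0 => by simp [hu, h0] at h4; linarith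
      rw [zv i]
      exact mul_le_mul (hc i h5) h4 (by positivity) (hv i)
    have h1 := sum_Ah s t α v z fun i => if i ∈ S k then 1 else 0
    simp only [mul_ite, mul_one, mul_zero, sum_ite_mem, univ_inter, hz, ← mul_sum] at h1
    have h2 : c * (M / 2) ≤ ∑ i ∈ S k, z i := by
      have i1 : i0 ∈ S k := (mS _ _).2 (by
        have : 0 ≤ (k : ℝ) * (M / (2 * m)) := by positivity
        simp only [hu, ← hMd]; linarith)
      exact (low i0 i1).trans (single_le_sum (fun i hi => le_trans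
        (mul_nonneg (by linarith) (by positivity)) (low i hi)) i1)
    have h3 : ∑ e, wt s t α v e * (z (s e) / v (s e) - z (t e) / v (t e)) *
        ((if s e ∈ S k then 1 else 0) - if t e ∈ S k then 1 else 0) ≤
        Fintype.card E * (τ * (2 * M)) := by
      rw [← nsmul_eq_mul]
      refine sum_le_card_nsmul _ _ _ fun e _ => ?_
      have b0 : 0 ≤ τ * (2 * M) := by positivity
      have b1 := abs_le.1 (hM (s e))
      have b2 := abs_le.1 (hM (t e))
      have b3 := wt_nonneg s t hα.le hv e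
      rcases hd e with h4 | h4
      · have h5 := abs_le.1 (tie e h4)
        have h6 : s e ∈ S k ↔ t e ∈ S k :=
          ⟨fun h => hSk ((mS _ _).2 (by have := (mS _ _).1 h; push_cast; linarith [h5.2])),
           fun h => hSk ((mS _ _).2 (by have := (mS _ _).1 h; push_cast; linarith [h5.1]))⟩
        simpa [h6] using b0
      · split_ifs
        · simpa using b0
        · rw [sub_zero, mul_one]
          exact (mul_le_mul_of_nonneg_left (by linarith) b3).trans
            (mul_le_mul_of_nonneg_right h4 (by positivity))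
        · have := (mul_le_mul_of_nonneg_left (show z (t e) / v (t e) - z (s e) / v (s e) ≤ 2 * M by
            linarith) b3).trans (mul_le_mul_of_nonneg_right h4 (by positivity))
          linarith
        · simpa using b0
    have h4 := le_of_mul_le_mul_left ((mul_le_mul_of_nonneg_left h2 hN'.le).trans (h1.le.trans h3)) hN'
    nlinarith
  obtain ⟨e0⟩ := Fintype.card_pos_iff.1 hN
  obtain ⟨i0, -, hi0⟩ := exists_max_image univ (fun i => |z i / v i|) ⟨s e0, mem_univ _⟩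
  have h0 : |z i0 / v i0| ≤ 0 := by
    rcases abs_cases (z i0 / v i0) with h | h
    · rw [h.1]; exact main z hz zv i0 fun i => h.1 ▸ hi0 i (mem_univ _)
    · have := main (-z) (fun i => by simp [hz]) (fun i => by
        rw [Pi.neg_apply, neg_div, mul_neg, ← zv]) i0 fun i => by
        rw [Pi.neg_apply, Pi.neg_apply, neg_div, neg_div, abs_neg, ← h.1]; exact hi0 i (mem_univ _)
      rw [h.1]; rwa [Pi.neg_apply, neg_div] at this
  funext i
  rw [zv i, abs_nonpos_iff.1 ((hi0 i (mem_univ _)).trans h0), mul_zero, Pi.zero_apply]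

/-- For large exponents every equilibrium is isolated. -/
theorem isolated (hst : ∀ e, s e ≠ t e) (hN : 0 < Fintype.card E) : ∀ᶠ α : ℝ in atTop,
    ∀ v : V → ℝ, (∀ i, 0 ≤ v i) → (∀ e, 0 < v (s e) + v (t e)) → ∑ i, v i = 1 →
      g s t α v - (Fintype.card E : ℝ) • v = 0 →
      ∀ᶠ x in 𝓝[≠] v, g s t α x - (Fintype.card E : ℝ) • x ≠ 0 := by
  have hN' : (1 : ℝ) ≤ Fintype.card E := Nat.one_le_cast.2 hN
  obtain ⟨e0⟩ := Fintype.card_pos_iff.1 hN
  have hm : (1 : ℝ) ≤ Fintype.card V := Nat.one_le_cast.2 (Fintype.card_pos_iff.2 ⟨s e0⟩)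
  set N : ℝ := (Fintype.card E : ℝ) with hNd
  set m : ℝ := (Fintype.card V : ℝ) with hmd
  obtain ⟨R, hR, hR3⟩ : ∃ R : ℝ, 1 < R ∧ (R ^ 3 - 1) * (m * N) < 1 / 2 :=
    ((eventually_mem_nhdsWithin (a := (1 : ℝ)) (s := Set.Ioi 1)).and (nhdsWithin_le_nhds
      (ContinuousAt.eventually_lt (f := fun R : ℝ => (R ^ 3 - 1) * (m * N)) (by fun_prop)
        continuousAt_const (by norm_num)))).exists
  set Q := 4 * m * N with hQd
  have hQ : 1 ≤ Q := by nlinarith
  have t1 := (tendsto_rpow_atTop_of_base_gt_one R hR).eventually_ge_atTop (Q ^ Fintype.card V)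
  have t2 := (tendsto_rpow_mul_exp_neg_mul_atTop_nhds_zero 1 (Real.log R)
    (Real.log_pos hR)).eventually_lt_const (show 0 < 1 / (16 * N ^ 3) by positivity)
  filter_upwards [eventually_ge_atTop 2, t1, t2,
    eventually_gt_atTop (4 * m ^ 2 * N * (1 + Q ^ Fintype.card V) ^ 2)]
    with α hα h1 h2 h3 v hv h hs heq
  have heq' : ∀ i, g s t α v i = N * v i := fun i => by
    have := congrFun heq i
    simp only [Pi.sub_apply, Pi.smul_apply, smul_eq_mul, Pi.zero_apply] at this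
    linarith
  have hη : N * Q⁻¹ ≤ 1 / (4 * m) := le_of_eq (by rw [hQd]; field_simp)
  have hsm := small_cut s t (by linarith) hv hQ hη h hs heq' hR (by
    have : 2 * m * (1 / (4 * m)) = 1 / 2 := by field_simp; norm_num
    linarith) h1 hN
  have hd := ((g_deriv s t hα hv h).sub
    ((hasStrictFDerivAt_id v).const_smul N)).hasFDerivAt.eventually_ne (c := 0) ?_
  · exact hd
  refine ((LinearMap.exists_antilipschitzWith (Ah s t α v - N • ContinuousLinearMap.id ℝ
    (V → ℝ) : (V → ℝ) →L[ℝ] (V → ℝ)).toLinearMap (LinearMap.ker_eq_bot'.2 fun z hz => ?_)).imp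
    fun K hK => hK.2)
  refine inj s t (α := α) (W := α * ((1 + Q ^ Fintype.card V) ^ 2)⁻¹) (τ := α * (N * (R ^ α)⁻¹))
    (c := 1 / (4 * N ^ 2)) (by linarith) hv hs (fun e => ?_) (fun i hi => ?_)
    (by rw [← div_eq_mul_inv, lt_div_iff₀ (by positivity)]; exact h3) ?_ (by positivity) hN z
    fun i => ?_
  · have a0 : 0 ≤ α := by linarith
    rcases le_total (v (t e)) (v (s e)) with h4 | h4
    · rcases dich s t (by linarith) hv hQ hη hsm h4 (h e)
        (fun U u1 u2 => by simpa [u1, u2] using le_ep s t hv U e) with h5 | h5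
      · right; rw [wt, mul_assoc]; exact mul_le_mul_of_nonneg_left h5 a0
      · left; rw [wt, mul_assoc]; exact mul_le_mul_of_nonneg_left h5 a0
    · rcases dich s t (by linarith) hv hQ hη hsm h4 (by rw [add_comm]; exact h e)
        (fun U u1 u2 => by simpa [u1, u2] using le_ep s t hv U e) with h5 | h5
      · right; rw [wt, mul_assoc, mul_comm (ph _ _ _)]; exact mul_le_mul_of_nonneg_left h5 a0
      · left; rw [wt, mul_assoc, mul_comm (ph _ _ _)]; exact mul_le_mul_of_nonneg_left h5 a0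
  · have h4 := g_le s t hst hα hv (c := 1 / N) (by positivity) (fun e => by
      have h5 := ph_add α (hv _) (hv _) (h e)
      have h6 : ∀ i, pe s t α v e i ≤ N * v i := fun i => heq' i ▸
        single_le_sum (fun e _ => pe_nonneg s t α hv e i) (mem_univ e)
      have h7 := h6 (s e)
      have h8 := h6 (t e)
      simp only [pe, de, hst e, (hst e).symm, if_true, if_false] at h7 h8
      rw [div_le_iff₀ (by positivity)]
      linarith) i
    have h5 : 0 < v i := (hv i).lt_of_ne' hi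
    rw [heq'] at h4
    have h6 := le_of_mul_le_mul_left h4 (show 0 < N by positivity)
    rw [div_le_iff₀ (by positivity)]
    refine le_of_mul_le_mul_left ?_ h5
    rw [div_div_eq_mul_div, div_one] at h6
    linarith
  · rw [Real.rpow_one, neg_mul, Real.exp_neg, ← Real.rpow_def_of_pos (by positivity),
      lt_div_iff₀ (by positivity)] at h2
    rw [lt_div_iff₀ (by positivity)]
    linarith
  · have := congrFun hz i
    simp only [ContinuousLinearMap.coe_coe, ContinuousLinearMap.sub_apply, Pi.sub_apply,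
      ContinuousLinearMap.smul_apply, ContinuousLinearMap.id_apply, Pi.smul_apply, smul_eq_mul,
      Pi.zero_apply] at this
    linarith

end Pool.Agent.H.MP_cd93fa_pr
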