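import Pool.Agent.H.MP_cd93fa_pr.Spec

set_option autoImplicit false
set_option linter.unusedSectionVars false
open Filter Topology Finset
open scoped RealInnerProductSpace

namespace Pool.Agent.H.MP_cd93fa_pr

variable {V E : Type*} [Fintype V] [DecidableEq V] [Fintype E] [DecidableEq E] (s t : E → V)

open Classical in
/-- Probability of staying in the good set during `T` steps. -/
noncomputable def st (α : ℝ) (G : (V → ℝ) → Prop) : ℕ → (V → ℝ) → ℝ
  | 0, b => if G b then 1 else 0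
  | T + 1, b => if G b then ∑ w, pw s t α b w * st α G T (b + cnt w) else 0

section abs
variable {α : ℝ} {G : (V → ℝ) → Prop} (hG : ∀ b, G b → ∀ i, 0 < b i)
include hG

lemma avg_le {b : V → ℝ} (hb : G b) {f : (E → V) → ℝ} {c : ℝ} (h : ∀ w, f w ≤ c) :
    ∑ w, pw s t α b w * f w ≤ c := by
  refine (sum_le_sum fun w _ =>
    mul_le_mul_of_nonneg_left (h w) (pw_nonneg s t α (hG b hb) w)).trans ?_
  rw [← sum_mul, sum_pw s t α (hG b hb), one_mul]

lemma st_mem (T : ℕ) : ∀ b, 0 ≤ st s t α G T b ∧ st s t α G T b ≤ 1 := by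
  induction T with
  | zero => intro b; unfold st; split_ifs <;> norm_num
  | succ T ih =>
    intro b
    unfold st
    split_ifs with h
    · exact ⟨sum_nonneg fun w _ => mul_nonneg (pw_nonneg s t α (hG b h) w) (ih _).1,
        avg_le s t hG h fun w => (ih _).2⟩
    · norm_num

lemma st_anti (T : ℕ) : ∀ b, st s t α G (T + 1) b ≤ st s t α G T b := by
  induction T with
  | zero =>
    intro b
    by_cases h : G b
    · exact (st_mem s t hG 1 b).2.trans (by simp [st, h])
    · simp [st, h]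
  | succ T ih =>
    intro b
    rw [st, st]
    split_ifs with h
    · exact sum_le_sum fun w _ => mul_le_mul_of_nonneg_left (ih _) (pw_nonneg s t α (hG b h) w)
    · rfl

lemma kill_abs {δ : ℝ} (hδ : 0 < δ) (hδ1 : δ ≤ 1) (w0 w1 : E → V) (T0 : ℕ)
    (h0 : ∀ b, G b → δ ≤ pw s t α b w0 ∧ δ ≤ pw s t α b w1)
    (hp : ∀ b, G b → ∃ T, st s t α G T (b + (T0 : ℝ) • cnt w0) +
      st s t α G T (b + (T0 : ℝ) • cnt w1) ≤ 3 / 2) (b : V → ℝ) :
    Tendsto (fun T => st s t α G T b) atTop (𝓝 0) := by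
  obtain ⟨q, hq, hle⟩ : ∃ q : (V → ℝ) → ℝ, (∀ b, Tendsto (fun T => st s t α G T b) atTop (𝓝 (q b)))
      ∧ ∀ b T, q b ≤ st s t α G T b := by
    have bd : ∀ b, BddBelow (Set.range fun T => st s t α G T b) := fun b =>
      ⟨0, by rintro _ ⟨T, rfl⟩; exact (st_mem s t hG T b).1⟩
    exact ⟨fun b => ⨅ T, st s t α G T b, fun b => tendsto_atTop_ciInf
      (antitone_nat_of_succ_le fun T => st_anti s t hG T b) (bd b), fun b T => ciInf_le (bd b) T⟩
  have q0 : ∀ b, 0 ≤ q b := fun b => ge_of_tendsto' (hq b) fun T => (st_mem s t hG T b).1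
  have q1 : ∀ b, q b ≤ 1 := fun b => (hle b 0).trans (st_mem s t hG 0 b).2
  have qn : ∀ b, ¬ G b → q b = 0 := fun b h => le_antisymm ((hle b 0).trans (by simp [st, h])) (q0 b)
  have qe : ∀ b, G b → q b = ∑ w, pw s t α b w * q (b + cnt w) := fun b h => by
    refine tendsto_nhds_unique ((tendsto_add_atTop_iff_nat 1).2 (hq b)) ?_
    simp only [st, h, if_true]
    exact tendsto_finsetSum _ fun w _ => (hq _).const_mul _
  by_contra hcon
  have hb : 0 < q b := (q0 b).lt_of_ne' fun h => hcon (h ▸ hq b)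
  obtain ⟨b', hb'⟩ : ∃ b', 1 - δ ^ T0 / 8 < q b' := by
    by_contra h1
    push Not at h1
    have h2 : 0 < δ ^ T0 / 8 := by positivity
    have h3 : ∀ T b, q b ≤ (1 - δ ^ T0 / 8) * st s t α G T b := fun T => by
      induction T with
      | zero =>
        intro b
        by_cases h : G b
        · simpa [st, h] using h1 b
        · simp [st, h, qn b h]
      | succ T ih =>
        intro b
        by_cases h : G b
        · rw [qe b h, st, if_pos h, mul_sum]
          refine sum_le_sum fun w _ => ?_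
          rw [mul_left_comm]
          exact mul_le_mul_of_nonneg_left (ih _) (pw_nonneg s t α (hG b h) w)
        · simp [st, h, qn b h]
    have h4 := ge_of_tendsto' ((hq b).const_mul (1 - δ ^ T0 / 8)) fun T => h3 T b
    nlinarith
  have hd : 0 < δ ^ T0 := by positivity
  have gd : ∀ b, 1 - q b ≤ 1 / 8 → G b := fun b h => by
    by_contra h1
    rw [qn b h1] at h
    norm_num at h
  have path : ∀ w, (∀ b, G b → δ ≤ pw s t α b w) → ∀ k ≤ T0,
      1 - q (b' + (k : ℝ) • cnt w) ≤ 1 / 8 := by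
    intro w hw
    have h1 : ∀ k ≤ T0, (1 - q (b' + (k : ℝ) • cnt w)) * δ ^ k ≤ δ ^ T0 / 8 →
        1 - q (b' + (k : ℝ) • cnt w) ≤ 1 / 8 := fun k hk h => by
      have h2 := mul_le_mul_of_nonneg_left (pow_le_pow_of_le_one hδ.le hδ1 hk)
        (sub_nonneg.2 (q1 (b' + (k : ℝ) • cnt w)))
      exact le_of_mul_le_mul_right (by linarith) hd
    have h2 : ∀ k ≤ T0, (1 - q (b' + (k : ℝ) • cnt w)) * δ ^ k ≤ δ ^ T0 / 8 := fun k hk => by
      induction k with
      | zero => simp; linarith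
      | succ k ih =>
        have h3 := ih (by omega)
        have h4 := gd _ (h1 k (by omega) h3)
        set c := b' + (k : ℝ) • cnt w
        have e : b' + ((k + 1 : ℕ) : ℝ) • cnt w = c + cnt w := by
          simp only [c]; push_cast; rw [add_smul, one_smul, add_assoc]
        have h5 : 1 - q c = ∑ w, pw s t α c w * (1 - q (c + cnt w)) := by
          simp only [mul_sub, mul_one, sum_sub_distrib, sum_pw s t α (hG c h4), ← qe c h4]
        have h6 := single_le_sum (f := fun w => pw s t α c w * (1 - q (c + cnt w)))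
          (fun w _ => mul_nonneg (pw_nonneg s t α (hG c h4) w) (sub_nonneg.2 (q1 _))) (mem_univ w)
        have h7 := mul_le_mul_of_nonneg_right (hw c h4) (sub_nonneg.2 (q1 (c + cnt w)))
        have h8 := mul_le_mul_of_nonneg_right (h7.trans (h6.trans h5.ge)) (pow_pos hδ k).le
        rw [e, pow_succ]
        linarith
    exact fun k hk => h1 k hk (h2 k hk)
  have g' : G b' := gd _ (by have := pow_le_one₀ (n := T0) hδ.le hδ1; linarith)
  obtain ⟨T, hT⟩ := hp b' g'
  have h1 := path w0 (fun b h => (h0 b h).1) T0 le_rfl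
  have h2 := path w1 (fun b h => (h0 b h).2) T0 le_rfl
  linarith [hle (b' + (T0 : ℝ) • cnt w0) T, hle (b' + (T0 : ℝ) • cnt w1) T]

end abs

/-- Maximal coupling of the winners of one edge. -/
noncomputable def cp (α : ℝ) (b b' : V → ℝ) (e : E) (a : V × V) : ℝ :=
  min (ph α (b (s e)) (b (t e))) (ph α (b' (s e)) (b' (t e))) * (de (s e) a.1 * de (s e) a.2) +
  min (ph α (b (t e)) (b (s e))) (ph α (b' (t e)) (b' (s e))) * (de (t e) a.1 * de (t e) a.2) +
  (ph α (b (s e)) (b (t e)) - min (ph α (b (s e)) (b (t e))) (ph α (b' (s e)) (b' (t e)))) *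
    (de (s e) a.1 * de (t e) a.2) +
  (ph α (b (t e)) (b (s e)) - min (ph α (b (t e)) (b (s e))) (ph α (b' (t e)) (b' (s e)))) *
    (de (t e) a.1 * de (s e) a.2)

lemma de_nonneg (a i : V) : 0 ≤ de a i := by unfold de; split_ifs <;> norm_num

lemma sum_de1 (a : V) : ∑ i, de a i = 1 := by simp [de]

lemma coupling (α : ℝ) {b b' : V → ℝ} (hb : ∀ i, 0 < b i) (hb' : ∀ i, 0 < b' i) :
    ∃ k : (E → V × V) → ℝ, (∀ ω, 0 ≤ k ω) ∧
      (∀ f : (E → V) → ℝ, ∑ ω, k ω * f (fun e => (ω e).1) = ∑ w, pw s t α b w * f w) ∧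
      (∀ f : (E → V) → ℝ, ∑ ω, k ω * f (fun e => (ω e).2) = ∑ w, pw s t α b' w * f w) ∧
      ∑ ω, k ω * ∑ e, (1 - de (ω e).1 (ω e).2) ≤
        ∑ e, |ph α (b (s e)) (b (t e)) - ph α (b' (s e)) (b' (t e))| := by
  have a1 := fun e => ph_add α (hb (s e)).le (hb (t e)).le (add_pos (hb _) (hb _))
  have a2 := fun e => ph_add α (hb' (s e)).le (hb' (t e)).le (add_pos (hb' _) (hb' _))
  have m1 : ∀ e a, ∑ a', cp s t α b b' e (a, a') = pe s t α b e a := fun e a => by
    simp only [cp, pe, sum_add_distrib, ← mul_sum, sum_de1]; ring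
  have m2 : ∀ e a', ∑ a, cp s t α b b' e (a, a') = pe s t α b' e a' := fun e a' => by
    simp only [cp, pe, sum_add_distrib, ← mul_sum, ← sum_mul, sum_de1]
    have h1 := a1 e
    have h2 := a2 e
    rcases le_total (ph α (b (s e)) (b (t e))) (ph α (b' (s e)) (b' (t e))) with h | h
    · rw [min_eq_left h, min_eq_right (by linarith)]
      linear_combination (de (s e) a') * (h1 - h2)
    · rw [min_eq_right h, min_eq_left (by linarith)]
      linear_combination (de (t e) a') * (h1 - h2)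
  have sp : ∀ F : (E → V × V) → ℝ, ∑ ω, F ω = ∑ w : E → V, ∑ w' : E → V, F fun e => (w e, w' e) :=
    fun F => by
      rw [← Fintype.sum_prod_type']
      exact Fintype.sum_equiv (Equiv.arrowProdEquivProdArrow _ _ _) _ _ fun ω => rfl
  refine ⟨fun ω => ∏ e, cp s t α b b' e (ω e), fun ω => prod_nonneg fun e _ => ?_,
    fun f => ?_, fun f => ?_, ?_⟩
  · have p := fun (i j : V) => ph_nonneg α (hb i).le (hb j).le
    have p' := fun (i j : V) => ph_nonneg α (hb' i).le (hb' j).le
    have d := fun (i j i' j' : V) => mul_nonneg (de_nonneg i j) (de_nonneg i' j')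
    exact add_nonneg (add_nonneg (add_nonneg (mul_nonneg (le_min (p _ _) (p' _ _)) (d _ _ _ _))
      (mul_nonneg (le_min (p _ _) (p' _ _)) (d _ _ _ _)))
      (mul_nonneg (sub_nonneg.2 (min_le_left _ _)) (d _ _ _ _)))
      (mul_nonneg (sub_nonneg.2 (min_le_left _ _)) (d _ _ _ _))
  · rw [sp]
    refine sum_congr rfl fun w _ => ?_
    dsimp only
    rw [← sum_mul, sum_prod fun e a' => cp s t α b b' e (w e, a')]
    simp only [m1, pw]
  · rw [sp, sum_comm]
    refine sum_congr rfl fun w _ => ?_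
    dsimp only
    rw [← sum_mul, sum_prod fun e a => cp s t α b b' e (a, w e)]
    simp only [m2, pw]
  · simp only [mul_sum]
    rw [sum_comm]
    refine sum_le_sum fun e _ => ?_
    rw [exp1 (fun e => by rw [Fintype.sum_prod_type]; simp only [m1, sum_pe_one s t α hb]) e
      fun a : V × V => 1 - de a.1 a.2, Fintype.sum_prod_type]
    simp only [cp, add_mul, sum_add_distrib, mul_assoc, ← mul_sum, sum_de]
    have h1 := a1 e
    have h2 := a2 e
    have d1 := de_nonneg (s e) (t e)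
    have d2 := de_nonneg (t e) (s e)
    have d3 : ∀ a : V, de a a = 1 := fun a => by simp [de]
    rw [d3, d3]
    rcases le_total (ph α (b (s e)) (b (t e))) (ph α (b' (s e)) (b' (t e))) with h | h
    · rw [min_eq_left h, min_eq_right (by linarith), abs_of_nonpos (by linarith)]
      nlinarith [mul_nonneg d2 (sub_nonneg.2 h)]
    · rw [min_eq_right h, min_eq_left (by linarith), abs_of_nonneg (by linarith)]
      nlinarith [mul_nonneg d1 (sub_nonneg.2 h)]

lemma cnt_sub (w w' : E → V) : ‖cnt w - cnt w'‖ ≤ ∑ e, (1 - de (w e) (w' e)) ∧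
    ∑ e, (1 - de (w e) (w' e)) ≤ Fintype.card E := by
  constructor
  · refine (pi_norm_le_iff_of_nonneg (sum_nonneg fun e _ => ?_)).2 fun i => ?_
    · unfold de; split_ifs <;> norm_num
    · rw [Pi.sub_apply, cnt, cnt, ← sum_sub_distrib]
      refine (abs_sum_le_sum_abs _ _).trans (sum_le_sum fun e _ => ?_)
      unfold de
      split_ifs <;> simp_all
  · rw [← mul_one (Fintype.card E : ℝ), ← nsmul_eq_mul]
    exact sum_le_card_nsmul _ _ _ fun e _ => by linarith [de_nonneg (w e) (w' e)]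

lemma dir {α : ℝ} (hst : ∀ e, s e ≠ t e) (hN : 0 < Fintype.card E) (hα : 6 < α) {v : V → ℝ}
    (hv : ∀ i, 0 < v i) (heq : ∀ i, g s t α v i = Fintype.card E * v i) {H : Type*}
    [NormedAddCommGroup H] [InnerProductSpace ℝ H] (Pp Pm : (V → ℝ) →L[ℝ] H) {κ : ℝ} (hκ : 0 < κ)
    (h1 : ∀ D, κ * ‖Pp D‖ ^ 2 ≤ ⟪Pp D, Pp (Ah s t α v D)⟫)
    (h2 : ∀ D, ⟪Pm D, Pm (Ah s t α v D)⟫ ≤ 3 * Fintype.card E * ‖Pm D‖ ^ 2)
    (h4 : ∀ D D', ∑ i, D i * (D' i / v i) = ⟪Pp D, Pp D'⟫ + ⟪Pm D, Pm D'⟫) :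
    ∃ e, Pp (de (s e) - de (t e)) ≠ 0 := by
  by_contra hc
  push Not at hc
  have z : ∀ D, Pp D = 0 := fun D => by
    have e : Ah s t α v D = ∑ e, (wt s t α v e * (D (s e) / v (s e) - D (t e) / v (t e))) •
        (de (s e) - de (t e)) := by
      funext i; rw [Ah_apply, Finset.sum_apply]; rfl
    have h := h1 D
    rw [e, map_sum] at h
    simp only [map_smul, hc, smul_zero, sum_const_zero, inner_zero_right] at h
    exact norm_eq_zero.1 (pow_eq_zero_iff two_ne_zero |>.1
      (le_antisymm (nonpos_of_mul_nonpos_right h hκ) (sq_nonneg _)))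
  obtain ⟨e0⟩ := Fintype.card_pos_iff.1 hN
  obtain ⟨i0, -, hi0⟩ := exists_min_image univ v ⟨s e0, mem_univ _⟩
  have a1 := h4 (Ah s t α v (de i0)) (de i0)
  have a2 := h4 (de i0) (de i0)
  have a3 := h2 (de i0)
  rw [sum_Ah, z, inner_zero_left, zero_add, real_inner_comm] at a1
  rw [sum_de, z, inner_zero_left, zero_add, real_inner_self_eq_norm_sq] at a2
  have hw : ∀ j, 1 / 2 ≤ ph α (v j) (v i0) := fun j => by
    have := Real.rpow_le_rpow (hv i0).le (hi0 j (mem_univ _)) (show 0 ≤ α by linarith)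
    rw [ph, le_div_iff₀ (den_pos α (hv _).le (hv _).le (add_pos (hv _) (hv _)))]
    linarith
  have v0 := hv i0
  have a4 : α / 2 / v i0 ^ 2 * g s t α v i0 ≤ ∑ e, wt s t α v e * (de i0 (s e) / v (s e) -
      de i0 (t e) / v (t e)) * (de i0 (s e) / v (s e) - de i0 (t e) / v (t e)) := by
    rw [g, mul_sum]
    refine sum_le_sum fun e _ => ?_
    have p := fun i j => mul_le_mul_of_nonneg_left (hw j) (show 0 ≤ α / v i0 ^ 2 * ph α (v i) (v j)
      from mul_nonneg (by positivity) (ph_nonneg α (hv i).le (hv j).le))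
    by_cases c1 : i0 = s e
    · have := mul_le_mul_of_nonneg_left (hw (t e)) (show 0 ≤ α / v i0 ^ 2 * ph α (v i0) (v (t e))
        from mul_nonneg (by positivity) (ph_nonneg α (hv _).le (hv _).le))
      have c2 : t e ≠ i0 := fun h => hst e (c1.symm.trans h.symm)
      simp only [pe, wt, de, ← c1, c2, c2.symm, if_true, if_false]
      refine le_of_eq_of_le (by ring) (this.trans (le_of_eq (by field_simp; ring)))
    by_cases c2 : i0 = t e
    · have := mul_le_mul_of_nonneg_left (hw (s e)) (show 0 ≤ α / v i0 ^ 2 * ph α (v i0) (v (s e))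
        from mul_nonneg (by positivity) (ph_nonneg α (hv _).le (hv _).le))
      simp only [pe, wt, de, ← c2, c1, Ne.symm c1, if_true, if_false]
      refine le_of_eq_of_le (by ring) (this.trans (le_of_eq (by field_simp; ring)))
    · simp [pe, de, c1, c2, Ne.symm c1, Ne.symm c2]
  have hN' : (0 : ℝ) < Fintype.card E := Nat.cast_pos.2 hN
  rw [heq, a1] at a4
  rw [← a2] at a3
  have a5 := a4.trans a3
  simp only [de, if_true] at a5
  field_simp at a5
  linarith

/-- Good states: normalised masses in `U`. -/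
def Gd (N : ℝ) (U : Set (V → ℝ)) (b : V → ℝ) : Prop :=
  (∀ i, 0 < b i) ∧ N ≤ ∑ i, b i ∧ (fun i => b i / ∑ i, b i) ∈ U

theorem kill {α : ℝ} (hst : ∀ e, s e ≠ t e) (hN : 0 < Fintype.card E) (hα : 6 < α) {v : V → ℝ}
    (hv : ∀ i, 0 < v i) (hs : ∑ i, v i = 1) (heq : ∀ i, g s t α v i = Fintype.card E * v i) :
    ∃ U ∈ 𝓝 v, ∀ b, Tendsto (fun T => st s t α (Gd (Fintype.card E) U) T b) atTop (𝓝 0) := by
  have hN' : (0 : ℝ) < Fintype.card E := Nat.cast_pos.2 hN
  obtain ⟨Pp, Pm, κ, hκ, h1, h2, h3, h4⟩ := spec hv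
    (fun i => hs ▸ single_le_sum (fun j _ => (hv j).le) (mem_univ i)) (Ah s t α v)
    (fun y z => by rw [sum_Ah, sum_Ah]; exact sum_congr rfl fun e _ => by ring)
    (3 * Fintype.card E)
  obtain ⟨e0, he0⟩ := dir s t hst hN hα hv heq Pp Pm (by linarith) h1 h2 h4
  set N : ℝ := (Fintype.card E : ℝ) with hNd
  set d := de (s e0) - de (t e0) with hd
  obtain ⟨K, hK, hKd⟩ : ∃ K, 0 < K ∧ ‖Pm d‖ + 1 ≤ K * ‖Pp d‖ :=
    have := norm_pos_iff.2 he0
    ⟨(‖Pm d‖ + 1) / ‖Pp d‖, by positivity, le_of_eq (by field_simp)⟩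
  set c := ‖Pp‖ + ‖Pm‖ with hc
  have c0 : 0 ≤ c := by positivity
  have he : ∀ e, 0 < v (s e) + v (t e) := fun e => add_pos (hv _) (hv _)
  obtain ⟨L0, U1, hU1, hL0⟩ := (hasStrictFDerivAt_pi.2 fun e => ph_deriv (α := α) (by linarith)
    (fun i => (hv i).le) (he e)).exists_lipschitzOnWith
  set L : ℝ := N * L0 with hL
  have l0 : 0 ≤ L := by positivity
  set C := K * c + c + c ^ 2 * N with hC
  have C0 : 0 ≤ C := by positivity
  obtain ⟨τ, hτ, hτ2⟩ : ∃ τ, 0 < τ ∧ (1 + K) * (τ + τ + τ) ≤ K * (κ - 3 * N) :=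
    have := sub_pos.2 hκ
    ⟨K * (κ - 3 * N) / (3 * (1 + K)), by positivity, le_of_eq (by field_simp; ring)⟩
  obtain ⟨ε, hε, hε2⟩ : ∃ ε, 0 < ε ∧ (K + 1) * c * ε ≤ τ :=
    ⟨τ / ((K + 1) * c + 1), by positivity, by
      rw [← mul_div_assoc, div_le_iff₀ (by positivity)]; linarith⟩
  obtain ⟨M, hM, hM2⟩ : ∃ M, 1 ≤ M ∧ c ^ 2 * N * L / M ≤ τ :=
    have : 0 ≤ c ^ 2 * N * L / τ := by positivity
    ⟨1 + c ^ 2 * N * L / τ, by linarith, by
      rw [div_le_iff₀ (by positivity), mul_add, mul_div_cancel₀ _ hτ.ne']; linarith⟩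
  obtain ⟨β, hβ, hβ1, hβ2⟩ : ∃ β, 0 < β ∧ β * (C * N) < 1 ∧ β * C ^ 2 * N * L < τ :=
    ((eventually_mem_nhdsWithin (a := (0 : ℝ)) (s := Set.Ioi 0)).and (nhdsWithin_le_nhds
      ((ContinuousAt.eventually_lt (f := fun β : ℝ => β * (C * N)) (by fun_prop)
        continuousAt_const (by simp)).and (ContinuousAt.eventually_lt
        (f := fun β : ℝ => β * C ^ 2 * N * L) (by fun_prop) continuousAt_const
        (by simpa using hτ))))).exists
  obtain ⟨U2, o2, m2, hU2⟩ := exists_nhds_square ((g_deriv s t (α := α) (by linarith)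
    (fun i => (hv i).le) he).isLittleO.def hε)
  obtain ⟨δ, hδ, hδ1, hδ2⟩ : ∃ δ : ℝ, 0 < δ ∧ δ < 1 ∧ ∀ i j, δ < ph α (v i) (v j) :=
    ((eventually_mem_nhdsWithin (a := (0 : ℝ)) (s := Set.Ioi 0)).and (nhdsWithin_le_nhds
      ((eventually_lt_nhds one_pos).and (eventually_all.2 fun i => eventually_all.2 fun j =>
        eventually_lt_nhds (by have := hv i; have := hv j; unfold ph; positivity))))).exists
  have hU3 : ∀ᶠ x in 𝓝 v, ∀ i j, δ < ph α (x i) (x j) := eventually_all.2 fun i =>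
    eventually_all.2 fun j => continuousAt_const.eventually_lt (ph_deriv (α := α) (by linarith)
      (fun i => (hv i).le) (add_pos (hv i) (hv j))).continuousAt (hδ2 i j)
  refine ⟨_, inter_mem hU1 (inter_mem (o2.mem_nhds m2) hU3), ?_⟩
  set U := U1 ∩ (U2 ∩ {x | ∀ i j, δ < ph α (x i) (x j)})
  have hG : ∀ b, Gd N U b → ∀ i, 0 < b i := fun b h => h.1
  have pair : ∀ S0 : ℝ, 0 < S0 → ∀ (T : ℕ) (b b' : V → ℝ), ∑ i, b i = ∑ i, b' i →
      K * c * S0 ^ 2 ≤ ∑ i, b i + T * N → st s t α (Gd N U) T b + st s t α (Gd N U) T b' - 1 ≤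
        Real.exp (-β * (Wf Pp Pm K M (b - b') - ((∑ i, b i) / S0) ^ 2)) := by
    intro S0 hS0 T
    have one : ∀ x y : ℝ, x ≤ y → 1 ≤ Real.exp (-β * (x - y)) := fun x y h =>
      Real.one_le_exp (by nlinarith)
    have ng : ∀ T b b' (x : ℝ), ¬ (Gd N U b ∧ Gd N U b') →
        st s t α (Gd N U) T b + st s t α (Gd N U) T b' - 1 ≤ Real.exp x := fun T b b' x h => by
      have a1 := (st_mem s t (α := α) hG T b).2
      have a2 := (st_mem s t (α := α) hG T b').2
      have a3 := Real.exp_pos x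
      have a4 : ∀ b, ¬ Gd N U b → st s t α (Gd N U) T b = 0 := fun b h => by
        cases T <;> simp [st, h]
      rcases not_and_or.1 h with h | h <;> rw [a4 _ h] <;> linarith
    induction T with
    | zero =>
      intro b b' hS hT
      by_cases hg : Gd N U b ∧ Gd N U b'
      swap
      · exact ng _ _ _ _ hg
      have a1 := (st_mem s t (α := α) hG 0 b).2
      have a2 := (st_mem s t (α := α) hG 0 b').2
      have S1 : 0 < ∑ i, b i := hN'.trans_le hg.1.2.1
      refine le_trans (by linarith) (one _ _ ?_)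
      have a3 : ‖b - b'‖ ≤ ∑ i, b i := (pi_norm_le_iff_of_nonneg S1.le).2 fun i => by
        have b1 := single_le_sum (fun j _ => (hg.1.1 j).le) (mem_univ i)
        have b2 := single_le_sum (fun j _ => (hg.2.1 j).le) (mem_univ i)
        rw [Pi.sub_apply, Real.norm_eq_abs, abs_le]
        constructor <;> linarith [hg.1.1 i, hg.2.1 i]
      have a4 := mul_le_mul_of_nonneg_left ((Pp.le_of_opNorm_le (show ‖Pp‖ ≤ c by
        linarith [norm_nonneg Pm]) (b - b')).trans (mul_le_mul_of_nonneg_left a3 c0)) hK.le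
      have a5 := Real.sqrt_nonneg (‖Pm (b - b')‖ ^ 2 + M ^ 2)
      have a6 : K * (c * ∑ i, b i) ≤ ((∑ i, b i) / S0) ^ 2 := by
        rw [div_pow, le_div_iff₀ (by positivity)]
        simp only [Nat.cast_zero, zero_mul, add_zero] at hT
        nlinarith
      unfold Wf
      linarith
    | succ T ih =>
      intro b b' hS hT
      by_cases hg : Gd N U b ∧ Gd N U b'
      swap
      · exact ng _ _ _ _ hg
      rcases le_total (Wf Pp Pm K M (b - b')) (((∑ i, b i) / S0) ^ 2) with hW | hW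
      · have a1 := (st_mem s t (α := α) hG (T + 1) b).2
        have a2 := (st_mem s t (α := α) hG (T + 1) b').2
        exact le_trans (by linarith) (one _ _ hW)
      obtain ⟨⟨p1, p2, p3⟩, q1, q2, q3⟩ := id hg
      rw [← hS] at q3
      set S := ∑ i, b i with hSd
      have S1 : 0 < S := hN'.trans_le p2
      obtain ⟨k, k0, k1, k2, k3⟩ := coupling s t α p1 q1
      have ks : ∑ ω, k ω = 1 := by simpa [sum_pw s t α p1] using k1 fun _ => 1
      have xd : ((fun i => b i / S) - fun i => b' i / S) = S⁻¹ • (b - b') := by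
        funext i; simp only [Pi.sub_apply, Pi.smul_apply, smul_eq_mul]; ring
      have nd : S * ‖((fun i => b i / S) - fun i => b' i / S)‖ = ‖b - b'‖ := by
        rw [xd, norm_smul, Real.norm_of_nonneg (by positivity)]; field_simp
      have dr := drift Pp Pm (N := N) (κ := κ) (θ := 3 * N) (S := S) (Λ := (S / S0) ^ 2)
        (Λ' := ((S + N) / S0) ^ 2) k k0 ks
        (fun ω => cnt (fun e => (ω e).1) - cnt fun e => (ω e).2)
        (fun ω => ∑ e, (1 - de (ω e).1 (ω e).2)) (fun ω => cnt_sub _ _) (b - b')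
        (Ah s t α v (b - b')) hK hM c0 (by linarith [norm_nonneg Pm]) (by linarith [norm_nonneg Pp])
        hβ hβ1.le (by positivity) hε.le l0 hN'.le S1 (h1 _) (h2 _) (h3 _) (by
          have a1 := hU2 (Set.mk_mem_prod p3.2.1 q3.2.1)
          have a2 : ∑ ω, k ω • (cnt (fun e => (ω e).1) - cnt fun e => (ω e).2) =
              g s t α (fun i => b i / S) - g s t α fun i => b' i / S := by
            funext i
            simp only [Finset.sum_apply, Pi.smul_apply, Pi.sub_apply, smul_eq_mul, mul_sub,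
              sum_sub_distrib, k1 fun w => cnt w i, k2 fun w => cnt w i, pw, g,
              exp_cnt (sum_pe_one s t α p1), exp_cnt (sum_pe_one s t α q1), pe_scale s t α p1 S1,
              pe_scale s t α q1 S1]
          have a3 : Ah s t α v (b - b') = S • Ah s t α v ((fun i => b i / S) - fun i => b' i / S) := by
            rw [xd, map_smul, smul_smul, mul_inv_cancel₀ S1.ne', one_smul]
          rw [a2, a3, ← smul_sub, norm_smul, Real.norm_of_nonneg S1.le, ← nd, mul_left_comm]
          exact mul_le_mul_of_nonneg_left a1 S1.le) (by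
          have a1 := hL0.dist_le_mul _ p3.1 _ q3.1
          rw [← nd, mul_left_comm, hL, mul_assoc]
          refine mul_le_mul_of_nonneg_left (k3.trans ?_) S1.le
          rw [hNd, ← nsmul_eq_mul]
          refine sum_le_card_nsmul _ _ _ fun e _ => ?_
          have a2 := (dist_le_pi_dist _ _ e).trans a1
          rwa [ph_scale α (p1 _).le (p1 _).le S1, ph_scale α (q1 _).le (q1 _).le S1,
            dist_eq_norm, dist_eq_norm] at a2) (by positivity) (by
          rw [div_pow, div_pow, ← sub_div, ← mul_div_assoc, ← mul_div_assoc]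
          exact div_le_div_of_nonneg_right (by nlinarith [mul_pos hN' S1]) (by positivity)) hW
        (le_trans (mul_le_mul_of_nonneg_left (by linarith) (by positivity)) hτ2)
      refine le_trans ?_ dr
      rw [st, st, if_pos hg.1, if_pos hg.2, ← k1 fun w => st s t α (Gd N U) T (b + cnt w),
        ← k2 fun w => st s t α (Gd N U) T (b' + cnt w), ← ks, ← sum_add_distrib, ← sum_sub_distrib]
      refine sum_le_sum fun ω _ => ?_
      have a1 := ih (b + cnt fun e => (ω e).1) (b' + cnt fun e => (ω e).2)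
        (by simp only [Pi.add_apply, sum_add_distrib, sum_cnt, ← hS, ← hSd]) (by
          simp only [Pi.add_apply, sum_add_distrib, sum_cnt, ← hSd]
          push_cast at hT; linarith)
      simp only [Pi.add_apply, sum_add_distrib, sum_cnt, ← hSd, add_sub_add_comm] at a1
      linarith [mul_le_mul_of_nonneg_left a1 (k0 ω)]
  obtain ⟨T0, hT0⟩ := exists_nat_ge (M + 4 + 1 / β)
  obtain ⟨T1, hT1⟩ := exists_nat_ge (T0 * N)
  refine kill_abs s t hG (δ := δ ^ Fintype.card E) (by positivity) (pow_le_one₀ hδ.le hδ1.le) s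
    (Function.update s e0 (t e0)) T0 (fun b hb => ?_) fun b hb => ?_
  · have S1 : 0 < ∑ i, b i := hN'.trans_le hb.2.1
    have a1 : ∀ i j, δ ≤ ph α (b i) (b j) := fun i j => by
      have := (hb.2.2.2.2 i j).le
      rwa [ph_scale α (hb.1 _).le (hb.1 _).le S1] at this
    have a2 : ∀ w : E → V, (∀ e, w e = s e ∨ w e = t e) → δ ^ Fintype.card E ≤ pw s t α b w :=
      fun w hw => by
        rw [← card_univ, ← prod_const]
        refine prod_le_prod (fun _ _ => hδ.le) fun e _ => ?_
        rcases hw e with h | h <;> simp [pe, de, h, hst e, (hst e).symm, a1]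
    refine ⟨a2 _ fun e => Or.inl rfl, a2 _ fun e => ?_⟩
    by_cases h : e = e0 <;> simp [h]
  · have S1 : 0 < ∑ i, b i := hN'.trans_le hb.2.1
    set S0 := ∑ i, b i + T0 * N with hS0
    have S2 : 0 < S0 := by positivity
    have sm : ∀ w : E → V, ∑ i, (b + (T0 : ℝ) • cnt w) i = S0 := fun w => by
      simp only [Pi.add_apply, Pi.smul_apply, smul_eq_mul, sum_add_distrib, ← mul_sum, sum_cnt]
      rfl
    obtain ⟨T, hT⟩ := exists_nat_ge (K * c * S0 ^ 2 / N)
    rw [div_le_iff₀ hN'] at hT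
    have a1 := pair S0 S2 T _ _ ((sm s).trans (sm (Function.update s e0 (t e0))).symm)
      (by rw [sm]; linarith)
    have a2 : b + (T0 : ℝ) • cnt s - (b + (T0 : ℝ) • cnt (Function.update s e0 (t e0))) =
        (T0 : ℝ) • d := by
      rw [add_sub_add_left_eq_sub, ← smul_sub]
      congr 1
      funext i
      rw [Pi.sub_apply, cnt, cnt, ← sum_sub_distrib, sum_eq_single e0 (fun e _ h => by simp [h])
        (by simp)]
      simp [hd]
    rw [sm, a2, div_self S2.ne', one_pow] at a1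
    have a3 : (T0 : ℝ) - M ≤ Wf Pp Pm K M ((T0 : ℝ) • d) := by
      have b1 : √(‖Pm ((T0 : ℝ) • d)‖ ^ 2 + M ^ 2) ≤ ‖Pm ((T0 : ℝ) • d)‖ + M :=
        Real.sqrt_le_iff.2 ⟨by positivity, by
          nlinarith [mul_nonneg (norm_nonneg (Pm ((T0 : ℝ) • d))) (show 0 ≤ M by linarith)]⟩
      have b2 := mul_le_mul_of_nonneg_left hKd (Nat.cast_nonneg (α := ℝ) T0)
      unfold Wf
      rw [map_smul, map_smul, norm_smul, norm_smul, Real.norm_natCast] at *
      linarith
    have a4 : Real.exp (-β * (Wf Pp Pm K M ((T0 : ℝ) • d) - 1)) ≤ 1 / 2 := by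
      have b1 := mul_le_mul_of_nonneg_left (show 1 / β ≤ Wf Pp Pm K M ((T0 : ℝ) • d) - 1 by
        linarith) hβ.le
      rw [mul_one_div_cancel hβ.ne'] at b1
      have b2 := Real.add_one_le_exp (β * (Wf Pp Pm K M ((T0 : ℝ) • d) - 1))
      rw [neg_mul, Real.exp_neg, inv_eq_one_div]
      exact one_div_le_one_div_of_le (by norm_num) (by linarith)
    exact ⟨T, by linarith⟩

end Pool.Agent.H.MP_cd93fa_pr
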