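import Pool.Agent.H.MP_cd93fa_pr.Eq

set_option autoImplicit false
set_option linter.unusedSectionVars false
open Filter Topology Finset

namespace Pool.Agent.H.MP_cd93fa_pr

lemma det {X : Type*} [MetricSpace X] {K : Set X} (hK : IsCompact K) {h : X → ℝ}
    (hc : ContinuousOn h K) (h0 : ∀ y, 0 ≤ h y)
    (iso : ∀ v ∈ K, h v = 0 → ∀ᶠ y in 𝓝[≠] v, h y ≠ 0) {x : ℕ → X} (hx : ∀ n, x n ∈ K)
    {γ : ℕ → ℝ} (hγ : ∀ n, 0 < γ n) (hγ0 : Tendsto γ atTop (𝓝 0)) (hγ1 : ¬ Summable γ)
    (hs : Summable fun n => γ n * h (x n)) {C : ℝ} (hC : 0 < C)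
    (hd : ∀ n, dist (x (n + 1)) (x n) ≤ C * γ n) :
    ∃ v ∈ K, h v = 0 ∧ Tendsto x atTop (𝓝 v) := by
  have fr : ∀ k : ℕ, ∃ᶠ n in atTop, h (x n) < 1 / ((k : ℝ) + 1) := fun k => by
    by_contra hcon
    rw [not_frequently] at hcon
    refine hγ1 ((hs.mul_left ((k : ℝ) + 1)).of_norm_bounded_eventually_nat ?_)
    filter_upwards [hcon] with n hn
    rw [not_lt, div_le_iff₀ (by positivity)] at hn
    rw [Real.norm_of_nonneg (hγ n).le]
    nlinarith [mul_le_mul_of_nonneg_left hn (hγ n).le]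
  obtain ⟨φ, hφ, hφ2⟩ := extraction_forall_of_frequently fr
  obtain ⟨v, hv, ψ, hψ, hlim⟩ := hK.tendsto_subseq fun k => hx (φ k)
  have hv0 : h v = 0 := by
    have h1 : Tendsto (fun k => h (x (φ (ψ k)))) atTop (𝓝 (h v)) :=
      (hc v hv).tendsto.comp (tendsto_nhdsWithin_iff.2 ⟨hlim, Eventually.of_forall fun k => hx _⟩)
    have h2 : Tendsto (fun k => h (x (φ (ψ k)))) atTop (𝓝 0) :=
      (squeeze_zero (fun k => h0 _) (fun k => (hφ2 k).le)
        tendsto_one_div_add_atTop_nhds_zero_nat).comp hψ.tendsto_atTop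
    exact tendsto_nhds_unique h1 h2
  refine ⟨v, hv, hv0, Metric.tendsto_atTop.2 fun ρ0 hρ0 => ?_⟩
  obtain ⟨R, hR, hRi⟩ := Metric.eventually_nhds_iff.1 (eventually_nhdsWithin_iff.1 (iso v hv hv0))
  obtain ⟨ρ, hρ, h1, h2⟩ : ∃ ρ, 0 < ρ ∧ ρ < R ∧ ρ < ρ0 :=
    ⟨min R ρ0 / 2, by positivity, by have := min_le_left R ρ0; linarith,
      by have := min_le_right R ρ0; linarith⟩
  obtain ⟨η, hη, hη2⟩ : ∃ η, 0 < η ∧ ∀ y ∈ K ∩ ((Metric.ball v (ρ / 4))ᶜ ∩ Metric.closedBall v ρ),
      η ≤ h y := by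
    refine (hK.inter_right (Metric.isOpen_ball.isClosed_compl.inter
      Metric.isClosed_closedBall)).exists_forall_le' (hc.mono Set.inter_subset_left) fun y hy => ?_
    refine (h0 y).lt_of_ne' (hRi ((Metric.mem_closedBall.1 hy.2.2).trans_lt h1) fun h3 => hy.2.1 ?_)
    rw [Set.mem_singleton_iff.1 h3]
    exact Metric.mem_ball_self (by positivity)
  have e1 := (tendsto_sum_nat_add fun n => γ n * h (x n)).eventually_lt_const
    (show 0 < η * ρ / (4 * C) by positivity)
  have e2 := eventually_forall_ge_atTop.2 (hγ0.eventually_lt_const (show 0 < ρ / (4 * C) by positivity))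
  have t := hφ.tendsto_atTop.comp hψ.tendsto_atTop
  obtain ⟨k, ⟨k1, k2⟩, k3⟩ := ((t.eventually (e1.and e2)).and
    (hlim.eventually (Metric.ball_mem_nhds v (show 0 < ρ / 4 by positivity)))).exists
  simp only [Function.comp_apply] at k1 k2 k3
  set n1 := φ (ψ k)
  have tail : ∀ j, C / η * ∑ i ∈ range j, γ (i + n1) * h (x (i + n1)) ≤ ρ / 4 := fun j => by
    have h3 := (((summable_nat_add_iff n1).2 hs).sum_le_tsum (range j)
      fun i _ => mul_nonneg (hγ _).le (h0 _)).trans k1.le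
    refine (mul_le_mul_of_nonneg_left h3 (by positivity)).trans (le_of_eq (by field_simp))
  have key : ∀ j, dist (x (j + n1)) v ≤
      ρ / 2 + C / η * ∑ i ∈ range j, γ (i + n1) * h (x (i + n1)) := fun j => by
    induction j with
    | zero => simp only [zero_add, range_zero, sum_empty, mul_zero, add_zero]; linarith
    | succ j ih =>
      have h3 := dist_triangle (x (j + n1 + 1)) (x (j + n1)) v
      have h4 := hd (j + n1)
      rw [add_right_comm]
      by_cases h5 : dist (x (j + n1)) v < ρ / 4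
      · have h6 := k2 (j + n1) (by omega)
        rw [lt_div_iff₀ (by positivity)] at h6
        have h7 : 0 ≤ C / η * ∑ i ∈ range (j + 1), γ (i + n1) * h (x (i + n1)) :=
          mul_nonneg (by positivity) (sum_nonneg fun i _ => mul_nonneg (hγ _).le (h0 _))
        linarith
      · have h6 := hη2 _ ⟨hx (j + n1), h5, Metric.mem_closedBall.2 (by linarith [tail j])⟩
        have h7 := mul_le_mul_of_nonneg_left h6 (mul_pos (div_pos hC hη) (hγ (j + n1))).le
        have h8 : C / η * γ (j + n1) * η = C * γ (j + n1) := by field_simp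
        rw [sum_range_succ]
        linarith
  refine ⟨n1, fun n hn => ?_⟩
  obtain ⟨j, rfl⟩ := Nat.exists_eq_add_of_le' hn
  linarith [key j, tail j]

section prod
variable {E β : Type*} [Fintype E] [DecidableEq E] [Fintype β]

lemma sum_prod (κ : E → β → ℝ) : ∑ w : E → β, ∏ e, κ e (w e) = ∏ e, ∑ a, κ e a :=
  (Fintype.prod_sum κ).symm

lemma exp1 {κ : E → β → ℝ} (h : ∀ e, ∑ a, κ e a = 1) (e0 : E) (f : β → ℝ) :
    ∑ w : E → β, (∏ e, κ e (w e)) * f (w e0) = ∑ a, κ e0 a * f a := by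
  have h1 := sum_prod fun e a => κ e a * if e = e0 then f a else 1
  simp only [prod_mul_distrib, prod_ite_eq', mem_univ, if_true] at h1
  rw [h1, prod_eq_single e0 (fun e _ he => by simp [he, h]) (by simp)]
  simp

end prod

variable {V E : Type*} [Fintype V] [DecidableEq V] [Fintype E] [DecidableEq E] (s t : E → V)

/-- Number of balls received by each vertex. -/
def cnt (w : E → V) (i : V) : ℝ := ∑ e, de (w e) i

/-- Probability of the joint outcome `w`. -/
noncomputable def pw (α : ℝ) (b : V → ℝ) (w : E → V) : ℝ := ∏ e, pe s t α b e (w e)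

lemma cnt_nonneg (w : E → V) (i : V) : 0 ≤ cnt w i :=
  sum_nonneg fun e _ => by unfold de; split_ifs <;> norm_num

lemma cnt_le (w : E → V) (i : V) : cnt w i ≤ Fintype.card E := by
  rw [← mul_one (Fintype.card E : ℝ), ← nsmul_eq_mul]
  exact sum_le_card_nsmul _ _ _ fun e _ => by unfold de; split_ifs <;> norm_num

lemma sum_cnt (w : E → V) : ∑ i, cnt w i = Fintype.card E := by
  unfold cnt; rw [sum_comm]; simp [de]

lemma sum_pe_one (α : ℝ) {b : V → ℝ} (hb : ∀ i, 0 < b i) (e : E) : ∑ i, pe s t α b e i = 1 := by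
  have := sum_pe s t α b e fun _ => 1
  simp only [mul_one] at this
  rw [this, ph_add α (hb _).le (hb _).le (add_pos (hb _) (hb _))]

lemma pw_nonneg (α : ℝ) {b : V → ℝ} (hb : ∀ i, 0 < b i) (w : E → V) : 0 ≤ pw s t α b w :=
  prod_nonneg fun e _ => pe_nonneg s t α (fun i => (hb i).le) e _

lemma sum_pw (α : ℝ) {b : V → ℝ} (hb : ∀ i, 0 < b i) : ∑ w, pw s t α b w = 1 := by
  simp [pw, sum_prod, sum_pe_one s t α hb]

lemma exp_cnt {κ : E → V → ℝ} (h : ∀ e, ∑ a, κ e a = 1) (i : V) :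
    ∑ w : E → V, (∏ e, κ e (w e)) * cnt w i = ∑ e, κ e i := by
  simp only [cnt, mul_sum]
  rw [sum_comm]
  refine sum_congr rfl fun e _ => ?_
  rw [exp1 h e fun a => de a i]
  simp [de]

lemma pe_scale (α : ℝ) {b : V → ℝ} (hb : ∀ i, 0 < b i) {S : ℝ} (hS : 0 < S) :
    pe s t α (fun i => b i / S) = pe s t α b := by
  funext e i
  simp only [pe, ph_scale α (hb _).le (hb _).le hS]

/-- Lyapunov function. -/
noncomputable def Ph (α : ℝ) (b : V → ℝ) : ℝ :=
  α⁻¹ * ∑ e, Real.log (b (s e) ^ α + b (t e) ^ α) - Fintype.card E * Real.log (∑ i, b i)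

/-- Squared length of the mean field. -/
noncomputable def hh (α : ℝ) (x : V → ℝ) : ℝ := ∑ i, (g s t α x i - Fintype.card E * x i) ^ 2

lemma Ph_le {α : ℝ} (hα : 1 ≤ α) {b : V → ℝ} (hb : ∀ i, 0 < b i) :
    Ph s t α b ≤ Fintype.card E := by
  have h1 : ∀ i, b i ≤ ∑ i, b i := fun i => single_le_sum (fun j _ => (hb j).le) (mem_univ i)
  have h2 : ∑ e, Real.log (b (s e) ^ α + b (t e) ^ α) ≤
      Fintype.card E * (α * (1 + Real.log (∑ i, b i))) := by
    rw [← nsmul_eq_mul]
    refine sum_le_card_nsmul _ _ _ fun e _ => ?_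
    have hS : 0 < ∑ i, b i := (hb _).trans_le (h1 (s e))
    have h3 := Real.rpow_le_rpow (hb _).le (h1 (s e)) (show 0 ≤ α by linarith)
    have h4 := Real.rpow_le_rpow (hb _).le (h1 (t e)) (show 0 ≤ α by linarith)
    have h5 := Real.log_le_log (den_pos α (hb (s e)).le (hb (t e)).le (add_pos (hb _) (hb _)))
      (show _ ≤ 2 * (∑ i, b i) ^ α by linarith)
    rw [Real.log_mul (by norm_num) (by positivity), Real.log_rpow hS] at h5
    have := Real.log_two_lt_d9
    linarith
  have h3 := mul_le_mul_of_nonneg_left h2 (show 0 ≤ α⁻¹ by positivity)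
  have h4 : α⁻¹ * (Fintype.card E * (α * (1 + Real.log (∑ i, b i)))) =
      Fintype.card E * (1 + Real.log (∑ i, b i)) := by field_simp
  unfold Ph
  linarith

lemma edge_conv (α : ℝ) {a c a' c' : ℝ} (ha : 0 < a) (hc : 0 < c) (ha' : 0 < a') (hc' : 0 < c') :
    Real.log (a ^ α + c ^ α) + α * (ph α a c * Real.log (a' / a) + ph α c a * Real.log (c' / c)) ≤
      Real.log (a' ^ α + c' ^ α) := by
  have h1 := convexOn_exp.2 (Set.mem_univ (α * Real.log (a' / a)))
    (Set.mem_univ (α * Real.log (c' / c))) (ph_nonneg α ha.le hc.le) (ph_nonneg α hc.le ha.le)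
    (ph_add α ha.le hc.le (by positivity))
  have e : ∀ {u u' : ℝ}, 0 < u → 0 < u' → Real.exp (α * Real.log (u' / u)) = u' ^ α / u ^ α :=
    fun {u u'} hu hu' => by
      rw [mul_comm, ← Real.rpow_def_of_pos (by positivity), Real.div_rpow hu'.le hu.le]
  simp only [smul_eq_mul, e ha ha', e hc hc'] at h1
  have h2 : ph α a c * (a' ^ α / a ^ α) + ph α c a * (c' ^ α / c ^ α) =
      (a' ^ α + c' ^ α) / (a ^ α + c ^ α) := by
    unfold ph; rw [add_comm (c ^ α)]; field_simp
  rw [h2, ← Real.le_log_iff_exp_le (by positivity), 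
    Real.log_div (x := a' ^ α + c' ^ α) (by positivity) (by positivity)] at h1
  linarith

lemma lyap (hst : ∀ e, s e ≠ t e) {α c S : ℝ} (hα : 2 ≤ α) {b : V → ℝ} (hb : ∀ i, 0 < b i)
    (hS : ∑ i, b i = S) (hS0 : 0 < S) (hc : 0 < c) (he : ∀ e, c ≤ b (s e) / S + b (t e) / S) :
    Ph s t α b + S⁻¹ * hh s t α (fun i => b i / S) -
      4 * Fintype.card V * Fintype.card E ^ 3 / c ^ 2 / S ^ 2 ≤
      ∑ w, pw s t α b w * Ph s t α (b + cnt w) := by
  set N : ℝ := (Fintype.card E : ℝ) with hN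
  have hN0 : 0 ≤ N := Nat.cast_nonneg _
  set G := g s t α b with hG
  have hG0 : ∀ i, 0 ≤ G i := fun i => sum_nonneg fun e _ => pe_nonneg s t α (fun i => (hb i).le) e _
  have hGx : g s t α (fun i => b i / S) = G := by unfold g; rw [pe_scale s t α hb hS0]; rfl
  have step : ∀ w : E → V, Ph s t α b + ∑ i, G i / b i * cnt w i - ∑ i, G i * (N / b i) ^ 2 -
      N ^ 2 / S ≤ Ph s t α (b + cnt w) := fun w => by
    have hb' : ∀ i, 0 < (b + cnt w) i := fun i => add_pos_of_pos_of_nonneg (hb i) (cnt_nonneg w i)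
    have h1 := sum_le_sum fun e (_ : e ∈ univ) =>
      edge_conv α (hb (s e)) (hb (t e)) (hb' (s e)) (hb' (t e))
    rw [sum_add_distrib, ← mul_sum, ← sum_g s t α b fun i => Real.log ((b + cnt w) i / b i)] at h1
    have h2 : ∑ i, G i / b i * cnt w i - ∑ i, G i * (N / b i) ^ 2 ≤
        ∑ i, G i * Real.log ((b + cnt w) i / b i) := by
      rw [← sum_sub_distrib]
      refine sum_le_sum fun i _ => ?_
      have b1 := hb i
      have b2 := cnt_nonneg w i
      have b3 := Real.one_sub_inv_le_log_of_pos (div_pos (hb' i) b1)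
      have b4 : (cnt w i / b i) ^ 2 ≤ (N / b i) ^ 2 :=
        pow_le_pow_left₀ (by positivity) (div_le_div_of_nonneg_right (cnt_le w i) b1.le) 2
      have b5 : cnt w i / b i - (cnt w i / b i) ^ 2 ≤ 1 - ((b + cnt w) i / b i)⁻¹ := by
        rw [Pi.add_apply, add_div, div_self b1.ne']
        have b6 : 0 ≤ cnt w i / b i := by positivity
        generalize cnt w i / b i = u at b6
        rw [le_sub_comm, inv_eq_one_div, div_le_iff₀ (by positivity)]
        nlinarith [pow_nonneg b6 3]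
      rw [div_mul_eq_mul_div, mul_div_assoc, ← mul_sub]
      exact mul_le_mul_of_nonneg_left (by linarith) (hG0 i)
    have h3 : Real.log (∑ i, (b + cnt w) i) ≤ Real.log (∑ i, b i) + N / S := by
      simp only [Pi.add_apply, sum_add_distrib, sum_cnt, hS]
      have := Real.log_le_sub_one_of_pos (show 0 < (S + N) / S by positivity)
      rw [Real.log_div (by positivity) hS0.ne', add_div, div_self hS0.ne'] at this
      linarith
    have h4 := mul_le_mul_of_nonneg_left h1 (show 0 ≤ α⁻¹ by positivity)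
    rw [mul_add, ← mul_assoc, inv_mul_cancel₀ (by positivity), one_mul] at h4
    have h5 := mul_le_mul_of_nonneg_left h3 hN0
    unfold Ph
    rw [pow_two N, mul_div_assoc]
    linarith
  refine le_trans ?_ (sum_le_sum fun w _ =>
    mul_le_mul_of_nonneg_left (step w) (pw_nonneg s t α hb w))
  have e1 : ∑ w, pw s t α b w * ∑ i, G i / b i * cnt w i = ∑ i, G i / b i * G i := by
    simp only [mul_sum]
    rw [sum_comm]
    refine sum_congr rfl fun i _ => ?_
    simp only [mul_left_comm (pw _ _ _ _ _), ← mul_sum]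
    exact congrArg _ (exp_cnt (sum_pe_one s t α hb) i)
  simp only [mul_sub, mul_add, sum_sub_distrib, sum_add_distrib, ← sum_mul, sum_pw s t α hb,
    one_mul, e1]
  have sG : ∑ i, G i = N := by
    simp only [hG, g]; rw [sum_comm]; simp [sum_pe_one s t α hb, hN]
  have e2 : S⁻¹ * hh s t α (fun i => b i / S) ≤ ∑ i, G i / b i * G i - N ^ 2 / S := by
    have : ∑ i, G i / b i * G i - N ^ 2 / S =
        ∑ i, (G i / b i * G i - 2 * N / S * G i + N ^ 2 / S ^ 2 * b i) := by
      simp only [sum_add_distrib, sum_sub_distrib, ← mul_sum, sG, hS]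
      field_simp
      ring
    rw [this, hh, hGx, mul_sum]
    refine sum_le_sum fun i _ => ?_
    have b1 := hb i
    have b2 : b i ≤ S := hS ▸ single_le_sum (fun j _ => (hb j).le) (mem_univ i)
    have b3 : G i / b i * G i - 2 * N / S * G i + N ^ 2 / S ^ 2 * b i =
        (b i)⁻¹ * (G i - N * (b i / S)) ^ 2 := by field_simp; ring
    rw [b3]
    exact mul_le_mul_of_nonneg_right (inv_anti₀ b1 b2) (sq_nonneg _)
  have e3 : ∑ i, G i * (N / b i) ^ 2 ≤ 4 * Fintype.card V * N ^ 3 / c ^ 2 / S ^ 2 := by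
    rw [show 4 * Fintype.card V * N ^ 3 / c ^ 2 / S ^ 2 =
      Fintype.card V * (4 * N ^ 3 / c ^ 2 / S ^ 2) by ring, ← nsmul_eq_mul]
    refine sum_le_card_nsmul _ _ _ fun i _ => ?_
    have b1 := hb i
    have b2 := g_le s t hst hα (x := fun i => b i / S) (fun i => (div_pos (hb i) hS0).le) hc he i
    rw [hGx] at b2
    refine (mul_le_mul_of_nonneg_right b2 (by positivity)).trans (le_of_eq ?_)
    rw [← hN]
    field_simp
    norm_num
  linarith

end Pool.Agent.H.MP_cd93fa_pr
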