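import Mathlib

set_option autoImplicit false
set_option linter.unusedSectionVars false
open Filter Topology Finset MeasureTheory

namespace Pool.Agent.H.MP_cd93fa_pr

/-- Dependence on the first `n` coordinates only. -/
def Dep {β γ : Type*} (n : ℕ) (φ : (ℕ → β) → γ) : Prop :=
  ∀ p q : ℕ → β, (∀ k < n, p k = q k) → φ p = φ q

lemma Dep.mono {β γ : Type*} {n m : ℕ} {φ : (ℕ → β) → γ} (h : Dep n φ) (hm : n ≤ m) : Dep m φ :=
  fun p q hp => h p q fun k hk => hp k (hk.trans_le hm)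

lemma Dep.comp {β γ δ : Type*} {n : ℕ} {φ : (ℕ → β) → γ} (h : Dep n φ) (f : γ → δ) :
    Dep n fun p => f (φ p) := fun p q hp => congrArg f (h p q hp)

lemma Dep.prod {β γ δ : Type*} {n : ℕ} {φ : (ℕ → β) → γ} {ψ : (ℕ → β) → δ} (h : Dep n φ)
    (h' : Dep n ψ) : Dep n fun p => (φ p, ψ p) := fun p q hp => Prod.ext (h p q hp) (h' p q hp)

variable {Ω : Type*} [MeasurableSpace Ω] (μ : Measure Ω) [IsProbabilityMeasure μ]

lemma int_fin {β : Type*} [Fintype β] {H : Ω → β} (hH : ∀ y, MeasurableSet {ω | H ω = y})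
    (f : β → ℝ) : Integrable (fun ω => f (H ω)) μ ∧
      ∫ ω, f (H ω) ∂μ = ∑ y, μ.real {ω | H ω = y} * f y := by
  classical
  have e : (fun ω => f (H ω)) = fun ω => ∑ y, {ω | H ω = y}.indicator (fun _ => f y) ω := by
    funext ω
    simp [Set.indicator_apply]
  have h1 : ∀ y ∈ univ, Integrable ({ω | H ω = y}.indicator fun _ => f y) μ := fun y _ =>
    (integrable_const _).indicator (hH y)
  rw [e]
  refine ⟨integrable_finsetSum _ h1, ?_⟩
  rw [integral_finsetSum _ h1]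
  exact sum_congr rfl fun y _ => by rw [integral_indicator_const _ (hH y), smul_eq_mul]

lemma ae_summable {f : ℕ → Ω → ℝ} (hi : ∀ n, Integrable (f n) μ) (h0 : ∀ n ω, 0 ≤ f n ω)
    (hs : Summable fun n => ∫ ω, f n ω ∂μ) : ∀ᵐ ω ∂μ, Summable fun n => f n ω := by
  have hm : ∀ n, AEMeasurable (fun ω => ENNReal.ofReal (f n ω)) μ := fun n =>
    (hi n).aemeasurable.ennreal_ofReal
  have h1 : ∫⁻ ω, ∑' n, ENNReal.ofReal (f n ω) ∂μ ≠ ⊤ := by
    rw [lintegral_tsum hm]
    simp only [fun n => (ofReal_integral_eq_lintegral_ofReal (hi n)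
      (Eventually.of_forall (h0 n))).symm]
    rw [← ENNReal.ofReal_tsum_of_nonneg (fun n => integral_nonneg (h0 n)) hs]
    exact ENNReal.ofReal_ne_top
  filter_upwards [ae_lt_top' (AEMeasurable.tsum hm) h1] with ω hω
  simpa [h0] using ENNReal.summable_toReal hω.ne

variable {β : Type*} [Fintype β] [Nonempty β] {W : ℕ → Ω → β}
  (hW : ∀ n w, MeasurableSet {ω | W n ω = w})
include hW

lemma hist_meas (n : ℕ) (y : Fin n → β) : MeasurableSet {ω | (fun k : Fin n => W k ω) = y} := by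
  simp only [funext_iff, Set.setOf_forall]
  exact MeasurableSet.iInter fun k => hW _ _

omit hW [MeasurableSpace Ω] [Fintype β] in
lemma dep_fac {γ : Type*} {n : ℕ} {φ : (ℕ → β) → γ} (h : Dep n φ) :
    ∃ f : (Fin n → β) → γ, ∀ p, φ p = f fun k => p k := by
  classical
  exact ⟨fun y => φ fun k => if hk : k < n then y ⟨k, hk⟩ else Classical.arbitrary β,
    fun p => h _ _ fun k hk => by simp [hk]⟩

lemma dep_int {n : ℕ} {φ : (ℕ → β) → ℝ} (h : Dep n φ) : Integrable (fun ω => φ (W · ω)) μ := by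
  obtain ⟨f, hf⟩ := dep_fac h
  simp only [hf]
  exact (int_fin μ (hist_meas hW n) f).1

omit [IsProbabilityMeasure μ] in
lemma dep_set {n : ℕ} {φ : (ℕ → β) → Prop} (h : Dep n φ) : MeasurableSet {ω | φ (W · ω)} := by
  obtain ⟨f, hf⟩ := dep_fac h
  have : {ω | φ (W · ω)} = ⋃ y ∈ {y | f y}, {ω | (fun k : Fin n => W k ω) = y} := by
    ext ω; simp [hf]
  rw [this]
  exact MeasurableSet.biUnion (Set.to_countable _) fun y _ => hist_meas hW n y

lemma dep_lim {n : ℕ} {φ : ℕ → (ℕ → β) → ℝ} (h : Dep n fun p T => φ T p)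
    (h0 : ∀ p, Tendsto (fun T => φ T p) atTop (𝓝 0)) :
    Tendsto (fun T => ∫ ω, φ T (W · ω) ∂μ) atTop (𝓝 0) := by
  classical
  have e : ∀ T, ∫ ω, φ T (W · ω) ∂μ = ∑ y : Fin n → β, μ.real {ω | (fun k : Fin n => W k ω) = y} *
      φ T fun k => if hk : k < n then y ⟨k, hk⟩ else Classical.arbitrary β := fun T => by
    rw [← (int_fin μ (hist_meas hW n) _).2]
    refine integral_congr_ae (Eventually.of_forall fun ω => ?_)
    exact congrFun (h _ _ fun k hk => by simp [hk]) T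
  simp only [e]
  simpa using tendsto_finsetSum univ fun (y : Fin n → β) _ =>
    (h0 _).const_mul (μ.real {ω | (fun k : Fin n => W k ω) = y})

lemma step {n : ℕ} {κ φ : (ℕ → β) → β → ℝ} (hκ : Dep n κ) (hφ : Dep n φ)
    (law : ∀ ω₀ w, μ.real {ω | (∀ k < n, W k ω = W k ω₀) ∧ W n ω = w} =
      μ.real {ω | ∀ k < n, W k ω = W k ω₀} * κ (W · ω₀) w) :
    ∫ ω, φ (W · ω) (W n ω) ∂μ = ∫ ω, ∑ w, κ (W · ω) w * φ (W · ω) w ∂μ := by
  obtain ⟨f, hf⟩ := dep_fac hφ
  obtain ⟨k, hk⟩ := dep_fac hκ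
  simp only [hf, hk]
  have hm : ∀ y : (Fin n → β) × β, MeasurableSet
      {ω | ((fun k : Fin n => W k ω), W n ω) = y} := fun y => by
    simp only [Prod.ext_iff, Set.setOf_and]
    exact (hist_meas hW n _).inter (hW _ _)
  rw [(int_fin μ hm fun y => f y.1 y.2).2,
    (int_fin μ (hist_meas hW n) fun y => ∑ w, k y w * f y w).2, Fintype.sum_prod_type]
  refine sum_congr rfl fun y _ => ?_
  rw [mul_sum]
  refine sum_congr rfl fun w _ => ?_
  rw [← mul_assoc]
  congr 1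
  by_cases hy : ∃ ω₀, (fun k : Fin n => W k ω₀) = y
  · obtain ⟨ω₀, rfl⟩ := hy
    have e : ∀ ω, ((fun k : Fin n => W k ω) = fun k : Fin n => W k ω₀) ↔
        ∀ k < n, W k ω = W k ω₀ := fun ω =>
      ⟨fun h k hk => congrFun h ⟨k, hk⟩, fun h => funext fun k => h k k.2⟩
    simp only [Prod.ext_iff, e]
    rw [law, hk]
  · push Not at hy
    simp [hy]

end Pool.Agent.H.MP_cd93fa_pr
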