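import Pool.Agent.H.MP_cd93fa_pr.Kill
import Pool.Agent.H.MP_cd93fa_pr.Prob

set_option autoImplicit false
set_option linter.unusedSectionVars false
open Filter Topology Finset MeasureTheory

namespace Pool.Agent.H.MP_cd93fa_pr

variable {V E : Type*} [Fintype V] [DecidableEq V] [Fintype E] [DecidableEq E] (s t : E → V)

/-- State after `n` steps along a path. -/
def bb (b0 : V → ℝ) (p : ℕ → E → V) : ℕ → V → ℝ
  | 0 => b0
  | n + 1 => bb b0 p n + cnt (p n)

lemma bb_dep (b0 : V → ℝ) (n : ℕ) : Dep n fun p : ℕ → E → V => bb b0 p n := by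
  induction n with
  | zero => intro p q _; rfl
  | succ n ih =>
    intro p q h
    have := ih p q fun k hk => h k (by omega)
    simp only at this
    simp only [bb, this, h n (by omega)]

lemma bb_pos {b0 : V → ℝ} (h0 : ∀ i, 1 ≤ b0 i) (p : ℕ → E → V) (n : ℕ) (i : V) :
    0 < bb b0 p n i := by
  induction n with
  | zero => exact one_pos.trans_le (h0 i)
  | succ n ih => exact add_pos_of_pos_of_nonneg ih (cnt_nonneg _ _)

lemma bb_sum (b0 : V → ℝ) (p : ℕ → E → V) (n : ℕ) :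
    ∑ i, bb b0 p n i = ∑ i, b0 i + n * Fintype.card E := by
  induction n with
  | zero => simp [bb]
  | succ n ih => simp only [bb, Pi.add_apply, sum_add_distrib, ih, sum_cnt]; push_cast; ring

lemma bb_edge {b0 : V → ℝ} (h0 : ∀ i, 1 ≤ b0 i) {p : ℕ → E → V}
    (hp : ∀ n e, p n e = s e ∨ p n e = t e) (n : ℕ) (e : E) :
    (n : ℝ) + 1 ≤ bb b0 p n (s e) + bb b0 p n (t e) := by
  induction n with
  | zero => simp only [bb, Nat.cast_zero]; linarith [h0 (s e), h0 (t e)]
  | succ n ih =>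
    have h1 : ∀ i, de (p n e) i ≤ cnt (p n) i := fun i => single_le_sum
      (f := fun e => de (p n e) i) (fun e _ => by unfold de; split_ifs <;> norm_num) (mem_univ e)
    have h2 := cnt_nonneg (p n) (s e)
    have h3 := cnt_nonneg (p n) (t e)
    simp only [bb, Pi.add_apply]
    push_cast
    rcases hp n e with h | h
    · have := h1 (s e); simp only [h, de, if_true] at this; linarith
    · have := h1 (t e); simp only [h, de, if_true] at this; linarith

lemma hh_zero (α : ℝ) (x : V → ℝ) :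
    hh s t α x = 0 ↔ g s t α x - (Fintype.card E : ℝ) • x = 0 := by
  rw [hh, sum_eq_zero_iff_of_nonneg fun i _ => sq_nonneg _]
  simp [funext_iff]

variable {Ω : Type*} [MeasurableSpace Ω] (μ : Measure Ω) [IsProbabilityMeasure μ] [Nonempty V]
  {W : ℕ → Ω → E → V} (hW : ∀ n w, MeasurableSet {ω | W n ω = w}) {α : ℝ} {b0 : V → ℝ}
  (law : ∀ n ω₀ w, μ.real {ω | (∀ k < n, W k ω = W k ω₀) ∧ W n ω = w} =
      μ.real {ω | ∀ k < n, W k ω = W k ω₀} * pw s t α (bb b0 (W · ω₀) n) w)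
include hW law

lemma step' {n : ℕ} {φ : (ℕ → E → V) → (E → V) → ℝ} (hφ : Dep n φ) :
    ∫ ω, φ (W · ω) (W n ω) ∂μ = ∫ ω, ∑ w, pw s t α (bb b0 (W · ω) n) w * φ (W · ω) w ∂μ :=
  step μ hW (κ := fun p => pw s t α (bb b0 p n)) ((bb_dep b0 n).comp _) hφ (law n)

lemma ae_ends : ∀ᵐ ω ∂μ, ∀ n e, W n ω e = s e ∨ W n ω e = t e := by
  refine ae_all_iff.2 fun n => ae_all_iff.2 fun e => ?_
  have h1 := step' s t μ hW law (n := n)
    (φ := fun _ w => if w e = s e ∨ w e = t e then 0 else 1) fun _ _ _ => rfl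
  have h2 : ∀ b w, pw s t α b w * (if w e = s e ∨ w e = t e then 0 else 1) = 0 := fun b w => by
    split_ifs with h
    · simp
    · push Not at h
      rw [pw, prod_eq_zero (mem_univ e) (by simp [pe, de, h]), zero_mul]
  simp only [h2, sum_const_zero, integral_zero] at h1
  rw [integral_eq_zero_iff_of_nonneg (fun ω => by dsimp only; split_ifs <;> simp)
    (int_fin μ (hW n) fun w => if w e = s e ∨ w e = t e then 0 else 1).1] at h1
  filter_upwards [h1] with ω hω
  by_contra h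
  simp [h] at hω

open Classical in
lemma stay (G : (V → ℝ) → Prop) (T : ℕ) : ∀ n (φ : (ℕ → E → V) → ℝ), Dep n φ →
    ∫ ω, φ (W · ω) * (if ∀ j ≤ T, G (bb b0 (W · ω) (n + j)) then 1 else 0) ∂μ =
      ∫ ω, φ (W · ω) * st s t α G T (bb b0 (W · ω) n) ∂μ := by
  induction T with
  | zero => intro n φ _; simp [st]
  | succ T ih =>
    intro n φ hφ
    have d1 : Dep n fun p => φ p * if G (bb b0 p n) then 1 else 0 :=
      (hφ.prod (bb_dep b0 n)).comp fun a => a.1 * if G a.2 then 1 else 0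
    have h1 := ih (n + 1) _ (d1.mono (Nat.le_succ n))
    have h2 := step' s t μ hW law ((d1.prod (bb_dep b0 n)).comp
      fun a w => a.1 * st s t α G T (a.2 + cnt w))
    refine Eq.trans (integral_congr_ae (Eventually.of_forall fun ω => ?_))
      (h1.trans (h2.trans (integral_congr_ae (Eventually.of_forall fun ω => ?_))))
    · have : (∀ j ≤ T + 1, G (bb b0 (W · ω) (n + j))) ↔
          G (bb b0 (W · ω) n) ∧ ∀ j ≤ T, G (bb b0 (W · ω) (n + 1 + j)) := by
        refine ⟨fun h => ⟨h 0 (by omega), fun j hj => ?_⟩, fun h j hj => ?_⟩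
        · rw [add_assoc]; exact h _ (by omega)
        · rcases j with _ | j
          · exact h.1
          · rw [add_comm j, ← add_assoc]; exact h.2 j (by omega)
      simp only [this]
      by_cases h : G (bb b0 (W · ω) n) <;> simp [h]
    · dsimp only
      by_cases h : G (bb b0 (W · ω) n)
      · simp only [st, h, if_true, mul_one, mul_sum]
        exact sum_congr rfl fun w _ => by ring
      · simp [st, h]

lemma ae_leave {G : (V → ℝ) → Prop} (hG : ∀ b, Tendsto (fun T => st s t α G T b) atTop (𝓝 0)) :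
    ∀ᵐ ω ∂μ, ∀ n, ¬ ∀ j, G (bb b0 (W · ω) (n + j)) := by
  classical
  refine ae_all_iff.2 fun n => ?_
  rw [ae_iff, ← measureReal_eq_zero_iff]
  refine le_antisymm (ge_of_tendsto' (dep_lim μ hW (n := n)
    (φ := fun T p => st s t α G T (bb b0 p n)) ((bb_dep b0 n).comp fun b T => st s t α G T b)
    fun p => hG _) fun T => ?_) measureReal_nonneg
  have h1 := stay s t μ hW law G T n (fun _ => 1) fun _ _ _ => rfl
  simp only [one_mul] at h1
  have hm : MeasurableSet {ω | ∀ j ≤ T, G (bb b0 (W · ω) (n + j))} :=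
    dep_set hW (n := n + T) (φ := fun p => ∀ j ≤ T, G (bb b0 p (n + j))) fun p q h =>
      propext (forall₂_congr fun j hj => by
        have := (bb_dep b0 (n + j)).mono (by omega : n + j ≤ n + T) p q h
        simp only at this
        rw [this])
  rw [← h1]
  refine le_of_le_of_eq (measureReal_mono (s₂ := {ω | ∀ j ≤ T, G (bb b0 (W · ω) (n + j))})
    (fun ω hω j _ => not_not.1 hω j)) ((integral_indicator_one hm).symm.trans ?_)
  simp only [Set.indicator_apply, Set.mem_ofPred_eq, Pi.one_apply]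

lemma ae_sum (hst : ∀ e, s e ≠ t e) (hN : 0 < Fintype.card E) (hα : 2 ≤ α) (h0 : ∀ i, 1 ≤ b0 i) :
    ∀ᵐ ω ∂μ, Summable fun n : ℕ => (∑ i, b0 i + n * Fintype.card E)⁻¹ *
      hh s t α fun i => bb b0 (W · ω) n i / (∑ i, b0 i + n * Fintype.card E) := by
  have hN' : (1 : ℝ) ≤ Fintype.card E := Nat.one_le_cast.2 hN
  have hS0 : 1 ≤ ∑ i, b0 i := (h0 (Classical.arbitrary V)).trans
    (single_le_sum (fun i _ => zero_le_one.trans (h0 i)) (mem_univ _))
  obtain ⟨S, hS⟩ : ∃ S : ℕ → ℝ, ∀ n, S n = ∑ i, b0 i + n * Fintype.card E := ⟨_, fun _ => rfl⟩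
  have hS1 : ∀ n : ℕ, (n : ℝ) + 1 ≤ S n := fun n => by
    rw [hS]; nlinarith [(Nat.cast_nonneg n : (0 : ℝ) ≤ n)]
  have hS2 : ∀ n, 0 < S n := fun n => lt_of_lt_of_le (by positivity) (hS1 n)
  simp only [← hS]
  have di : ∀ n (F : (V → ℝ) → ℝ), Integrable (fun ω => F (bb b0 (W · ω) n)) μ := fun n F =>
    dep_int μ hW ((bb_dep b0 n).comp F)
  have nn : ∀ n x, 0 ≤ (S n)⁻¹ * hh s t α x := fun n x =>
    mul_nonneg (inv_pos.2 (hS2 n)).le (sum_nonneg fun i _ => sq_nonneg _)
  refine ae_summable μ (fun n => di n fun b => (S n)⁻¹ * hh s t α fun i => b i / S n)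
    (fun n ω => nn _ _) ?_
  obtain ⟨C, hC⟩ : ∃ C : ℝ, C = 4 * Fintype.card V * Fintype.card E ^ 3 /
    (∑ i, b0 i + Fintype.card E)⁻¹ ^ 2 := ⟨_, rfl⟩
  have hC0 : 0 ≤ C := by rw [hC]; positivity
  have hsum : Summable fun n => C / S n ^ 2 := by
    have h1 := ((summable_nat_add_iff 1).2 (Real.summable_one_div_nat_pow.2 one_lt_two)).mul_left C
    refine h1.of_nonneg_of_le (fun n => by positivity) fun n => ?_
    rw [mul_one_div]
    push_cast
    exact div_le_div_of_nonneg_left hC0 (by positivity)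
      (pow_le_pow_left₀ (by positivity) (hS1 n) 2)
  have one : ∀ n, ∫ ω, Ph s t α (bb b0 (W · ω) n) ∂μ +
      ∫ ω, (S n)⁻¹ * hh s t α (fun i => bb b0 (W · ω) n i / S n) ∂μ - C / S n ^ 2 ≤
      ∫ ω, Ph s t α (bb b0 (W · ω) (n + 1)) ∂μ := fun n => by
    have h1 := step' s t μ hW law ((bb_dep b0 n).comp fun b w => Ph s t α (b + cnt w))
    have h2 := integral_mono_ae
      (di n fun b => Ph s t α b + (S n)⁻¹ * hh s t α (fun i => b i / S n) - C / S n ^ 2)
      (di n fun b => ∑ w, pw s t α b w * Ph s t α (b + cnt w)) (by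
        filter_upwards [ae_ends s t μ hW law] with ω hω
        rw [hC]
        refine lyap s t hst hα (bb_pos h0 _ n) (by rw [bb_sum, hS]) (hS2 n) (by positivity)
          fun e => ?_
        rw [← add_div, le_div_iff₀ (hS2 n), inv_mul_le_iff₀ (by positivity), hS]
        refine le_trans ?_ (mul_le_mul_of_nonneg_left
          (bb_edge s t h0 (p := (W · ω)) hω n e) (by positivity))
        nlinarith [(Nat.cast_nonneg n : (0 : ℝ) ≤ n)])
    rw [integral_sub (di n fun b => Ph s t α b + (S n)⁻¹ * hh s t α (fun i => b i / S n))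
      (integrable_const _), integral_add (di n _)
        (di n fun b => (S n)⁻¹ * hh s t α fun i => b i / S n), ← h1] at h2
    simpa [bb] using h2
  have tel : ∀ M, ∑ n ∈ range M, ∫ ω, (S n)⁻¹ * hh s t α (fun i => bb b0 (W · ω) n i / S n) ∂μ ≤
      ∫ ω, Ph s t α (bb b0 (W · ω) M) ∂μ - Ph s t α b0 + ∑ n ∈ range M, C / S n ^ 2 := fun M => by
    induction M with
    | zero => simp [bb]
    | succ M ih => rw [sum_range_succ, sum_range_succ]; linarith [one M]
  refine summable_of_sum_range_le (c := Fintype.card E - Ph s t α b0 + ∑' n, C / S n ^ 2)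
    (fun n => integral_nonneg fun ω => nn _ _) fun M => (tel M).trans ?_
  have h1 := hsum.sum_le_tsum (range M) fun n _ => by positivity
  have h2 := integral_mono (di M _) (integrable_const (Fintype.card E : ℝ)) fun ω =>
    Ph_le s t (by linarith : 1 ≤ α) (bb_pos h0 (W · ω) M)
  simp only [integral_const, probReal_univ, smul_eq_mul, one_mul] at h2
  linarith

omit hW law in
theorem main (hst : ∀ e, s e ≠ t e) (hN : 0 < Fintype.card E) : ∀ᶠ α : ℝ in atTop,
    ∀ b0 : V → ℝ, (∀ i, 1 ≤ b0 i) → ∀ (Ω : Type) [MeasurableSpace Ω] (μ : Measure Ω)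
      [IsProbabilityMeasure μ] (W : ℕ → Ω → E → V), (∀ n w, MeasurableSet {ω | W n ω = w}) →
      (∀ n ω₀ w, μ.real {ω | (∀ k < n, W k ω = W k ω₀) ∧ W n ω = w} =
        μ.real {ω | ∀ k < n, W k ω = W k ω₀} * pw s t α (bb b0 (W · ω₀) n) w) →
      ∀ᵐ ω ∂μ, ∃ v ∈ stdSimplex ℝ V, (∃ i, v i = 0) ∧ Tendsto (fun (n : ℕ) i =>
        bb b0 (W · ω) n i / (∑ i, b0 i + n * Fintype.card E)) atTop (𝓝 v) := by
  filter_upwards [isolated s t hst hN, eventually_gt_atTop 6] with α iso hα b0 h0 Ω _ μ _ W hW law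
  have hN' : (1 : ℝ) ≤ Fintype.card E := Nat.one_le_cast.2 hN
  have hS0 : 1 ≤ ∑ i, b0 i := (h0 (Classical.arbitrary V)).trans
    (single_le_sum (fun i _ => zero_le_one.trans (h0 i)) (mem_univ _))
  have hsum := ae_sum s t μ hW law hst hN (by linarith) h0
  obtain ⟨S, hS⟩ : ∃ S : ℕ → ℝ, ∀ n, S n = ∑ i, b0 i + n * Fintype.card E := ⟨_, fun _ => rfl⟩
  have hS1 : ∀ n : ℕ, (n : ℝ) + 1 ≤ S n := fun n => by
    rw [hS]; nlinarith [(Nat.cast_nonneg n : (0 : ℝ) ≤ n)]
  have hS2 : ∀ n, 0 < S n := fun n => lt_of_lt_of_le (by positivity) (hS1 n)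
  have hS3 : ∀ n : ℕ, S n ≤ (∑ i, b0 i + Fintype.card E) * ((n : ℝ) + 1) := fun n => by
    rw [hS]; nlinarith [(Nat.cast_nonneg n : (0 : ℝ) ≤ n)]
  simp only [← hS] at hsum ⊢
  obtain ⟨c, hc⟩ : ∃ c, c = (∑ i, b0 i + Fintype.card E)⁻¹ := ⟨_, rfl⟩
  have hc0 : 0 < c := by rw [hc]; positivity
  obtain ⟨K, hK⟩ : ∃ K : Set (V → ℝ), K = stdSimplex ℝ V ∩ ⋂ e, {x | c ≤ x (s e) + x (t e)} :=
    ⟨_, rfl⟩
  have hKc : IsCompact K := by
    rw [hK]
    exact (isCompact_stdSimplex ℝ V).inter_right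
      (isClosed_iInter fun e => isClosed_le continuous_const (by fun_prop))
  have mK : ∀ x, x ∈ K ↔ ((∀ i, 0 ≤ x i) ∧ ∑ i, x i = 1) ∧ ∀ e, c ≤ x (s e) + x (t e) := fun x => by
    simp [hK, stdSimplex]
  have kl : ∀ v : V → ℝ, ∃ U : Set (V → ℝ), (v ∈ K ∧ hh s t α v = 0 ∧ ∀ i, 0 < v i) →
      U ∈ 𝓝 v ∧ ∀ b, Tendsto (fun T => st s t α (Gd (Fintype.card E) U) T b) atTop (𝓝 0) :=
    fun v => by
      by_cases h : v ∈ K ∧ hh s t α v = 0 ∧ ∀ i, 0 < v i
      · obtain ⟨U, h1⟩ := kill s t hst hN hα h.2.2 ((mK v).1 h.1).1.2 fun i =>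
          sub_eq_zero.1 (congrFun ((hh_zero s t α v).1 h.2.1) i)
        exact ⟨U, fun _ => h1⟩
      · exact ⟨∅, fun h1 => absurd h1 h⟩
  choose U hU using kl
  obtain ⟨Z, hZ, hZc, hcov⟩ := TopologicalSpace.countable_cover_nhdsWithin
    (f := fun v => interior (U v)) (s := {v | v ∈ K ∧ hh s t α v = 0 ∧ ∀ i, 0 < v i})
    fun v hv => mem_nhdsWithin_of_mem_nhds (interior_mem_nhds.2 (hU v hv).1)
  have hle := (ae_ball_iff hZc).2 fun v hv => ae_leave s t μ hW law (hU v (hZ hv)).2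
  filter_upwards [hsum, hle, ae_ends s t μ hW law] with ω h1 h2 h3
  obtain ⟨b, hb⟩ : ∃ b, b = bb b0 (W · ω) := ⟨_, rfl⟩
  have bp : ∀ n i, 0 < b n i := hb ▸ bb_pos h0 _
  have bs : ∀ n, ∑ i, b n i = S n := fun n => by rw [hb, bb_sum, hS]
  have be : ∀ (n : ℕ) e, (n : ℝ) + 1 ≤ b n (s e) + b n (t e) := hb ▸ bb_edge s t h0 h3
  have bn : ∀ n, b (n + 1) = b n + cnt (W n ω) := fun n => by rw [hb]; rfl
  rw [← hb] at h1 h2 ⊢
  obtain ⟨v, v1, v2, v3⟩ := det hKc (h := hh s t α) (x := fun n i => b n i / S n)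
    (γ := fun n => (S n)⁻¹) (C := Fintype.card E) (fun x hx => by
      have := (g_deriv s t (α := α) (by linarith) ((mK x).1 hx).1.1
        fun e => hc0.trans_le (((mK x).1 hx).2 e)).continuousAt
      refine ContinuousAt.continuousWithinAt (tendsto_finsetSum _ fun i _ => ?_)
      exact (((continuous_apply i).continuousAt.comp this).sub
        (continuous_const.mul (continuous_apply i)).continuousAt).pow 2)
    (fun y => sum_nonneg fun i _ => sq_nonneg _) (fun v hv h => by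
      simp only [ne_eq, hh_zero] at h ⊢
      exact iso v ((mK v).1 hv).1.1 (fun e => hc0.trans_le (((mK v).1 hv).2 e))
        ((mK v).1 hv).1.2 h)
    (fun n => (mK _).2 ⟨⟨fun i => (div_pos (bp n i) (hS2 n)).le,
      by rw [← sum_div, bs, div_self (hS2 n).ne']⟩, fun e => by
        rw [← add_div, le_div_iff₀ (hS2 n), hc, inv_mul_le_iff₀ (by positivity)]
        exact (hS3 n).trans (mul_le_mul_of_nonneg_left (be n e) (by positivity))⟩)
    (fun n => inv_pos.2 (hS2 n)) (tendsto_inv_atTop_zero.comp (tendsto_atTop_mono hS1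
      (tendsto_atTop_add_const_right _ 1 tendsto_natCast_atTop_atTop))) (fun h => by
      refine Real.not_summable_one_div_natCast ((summable_nat_add_iff 1).1
        ((h.mul_left (∑ i, b0 i + Fintype.card E)).of_nonneg_of_le (fun n => by positivity)
          fun n => ?_))
      rw [← div_eq_mul_inv, div_le_div_iff₀ (by positivity) (hS2 n), one_mul]
      push_cast
      exact hS3 n) h1 (by linarith) (fun n => by
      have e1 : S (n + 1) = S n + Fintype.card E := by rw [hS, hS]; push_cast; ring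
      have p1 := hS2 n
      refine (dist_pi_le_iff (by positivity)).2 fun i => ?_
      have p2 : b n i ≤ S n := bs n ▸ single_le_sum (fun j _ => (bp n j).le) (mem_univ i)
      have p3 := cnt_nonneg (W n ω) i
      have p4 := cnt_le (W n ω) i
      have p5 := bp n i
      rw [Real.dist_eq, bn, e1, Pi.add_apply, div_sub_div _ _ (by positivity) p1.ne', abs_div,
        abs_of_pos (by positivity : 0 < (S n + Fintype.card E) * S n), div_le_iff₀ (by positivity),
        ← div_eq_mul_inv, div_mul_eq_mul_div, mul_div_assoc, mul_div_assoc, div_self p1.ne',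
        abs_le]
      constructor <;> nlinarith)
  refine ⟨v, ((mK v).1 v1).1, ?_, v3⟩
  by_contra hv
  push Not at hv
  obtain ⟨z, hz, hvz⟩ := Set.mem_iUnion₂.1
    (hcov ⟨v1, v2, fun i => (((mK v).1 v1).1.1 i).lt_of_ne' (hv i)⟩)
  obtain ⟨n, hn⟩ := eventually_atTop.1 (v3 (mem_interior_iff_mem_nhds.1 hvz))
  refine h2 z hz (n + 1) fun j => ⟨bp _, ?_, ?_⟩
  · rw [bs, hS]
    push_cast
    nlinarith [(Nat.cast_nonneg n : (0 : ℝ) ≤ n), (Nat.cast_nonneg j : (0 : ℝ) ≤ j)]
  · rw [bs]; exact hn _ (by omega)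

end Pool.Agent.H.MP_cd93fa_pr
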