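import Pool.Agent.H.MP_cd93fa_pr.Lyap

set_option autoImplicit false
set_option linter.unusedSectionVars false
open Filter Topology Finset WithLp
open scoped RealInnerProductSpace

namespace Pool.Agent.H.MP_cd93fa_pr

variable {V : Type*} [Fintype V] [DecidableEq V]

lemma spec {v : V → ℝ} (hv : ∀ i, 0 < v i) (hv1 : ∀ i, v i ≤ 1) (A : (V → ℝ) →L[ℝ] (V → ℝ))
    (hA : ∀ y z, ∑ i, A y i * (z i / v i) = ∑ i, A z i * (y i / v i)) (θ : ℝ) :
    ∃ (Pp Pm : (V → ℝ) →L[ℝ] EuclideanSpace ℝ (Fin (Fintype.card V))) (κ : ℝ), θ < κ ∧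
      (∀ D, κ * ‖Pp D‖ ^ 2 ≤ ⟪Pp D, Pp (A D)⟫) ∧ (∀ D, ⟪Pm D, Pm (A D)⟫ ≤ θ * ‖Pm D‖ ^ 2) ∧
      (∀ D, ‖D‖ ≤ ‖Pp D‖ + ‖Pm D‖) ∧
      ∀ D D', ∑ i, D i * (D' i / v i) = ⟪Pp D, Pp D'⟫ + ⟪Pm D, Pm D'⟫ := by
  have hq : ∀ i, 0 < √(v i) := fun i => Real.sqrt_pos.2 (hv i)
  obtain ⟨R, hR⟩ : ∃ R : (V → ℝ) →ₗ[ℝ] EuclideanSpace ℝ V, ∀ D i, R D i = D i / √(v i) :=
    ⟨⟨⟨fun D => toLp 2 fun i => D i / √(v i), fun x y => by ext i; simp [add_div]⟩,
      fun c x => by ext i; simp [mul_div_assoc]⟩, fun _ _ => rfl⟩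
  obtain ⟨R', hR'⟩ : ∃ R' : EuclideanSpace ℝ V →ₗ[ℝ] (V → ℝ), ∀ z i, R' z i = √(v i) * z i :=
    ⟨⟨⟨fun z i => √(v i) * z i, fun x y => by ext i; simp [mul_add]⟩,
      fun c x => by ext i; simp [mul_left_comm]⟩, fun _ _ => rfl⟩
  have r1 : ∀ D, R' (R D) = D := fun D => funext fun i => by
    rw [hR', hR, mul_div_cancel₀ _ (hq i).ne']
  have r2 : ∀ z, R (R' z) = z := fun z => by
    ext i; rw [hR, hR', mul_div_cancel_left₀ _ (hq i).ne']
  have r3 : ∀ D D', ⟪R D, R D'⟫ = ∑ i, D i * (D' i / v i) := fun D D' => by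
    rw [PiLp.inner_apply]
    refine sum_congr rfl fun i _ => ?_
    have := Real.mul_self_sqrt (hv i).le
    have := hq i
    simp only [hR, RCLike.inner_apply, conj_trivial]
    rw [div_mul_div_comm, Real.mul_self_sqrt (hv i).le]
    ring
  have hT : (R ∘ₗ A.toLinearMap ∘ₗ R').IsSymmetric := fun x y => by
    conv_lhs => rw [← r2 y]
    conv_rhs => rw [← r2 x, real_inner_comm]
    simp only [LinearMap.comp_apply, ContinuousLinearMap.coe_coe, r3]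
    exact hA _ _
  set B := hT.eigenvectorBasis finrank_euclideanSpace
  set μ := hT.eigenvalues finrank_euclideanSpace
  have hB : ∀ D k, B.repr (R (A D)) k = μ k * B.repr (R D) k := fun D k => by
    have := hT.eigenvectorBasis_apply_self_apply finrank_euclideanSpace (R D) k
    simp only [LinearMap.comp_apply, ContinuousLinearMap.coe_coe, r1] at this
    exact this
  have ex : ∀ p : Fin (Fintype.card V) → Prop, ∀ [DecidablePred p],
      ∃ P : (V → ℝ) →L[ℝ] EuclideanSpace ℝ (Fin (Fintype.card V)),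
        ∀ D k, P D k = if p k then B.repr (R D) k else 0 := fun p _ =>
    ⟨LinearMap.toContinuousLinearMap ⟨⟨fun D => toLp 2 fun k => if p k then B.repr (R D) k else 0,
      fun x y => by ext k; by_cases h : p k <;> simp [h]⟩,
      fun c x => by ext k; by_cases h : p k <;> simp [h]⟩, fun _ _ => rfl⟩
  obtain ⟨Pp, hp⟩ := ex fun k => θ < μ k
  obtain ⟨Pm, hm⟩ := ex fun k => ¬ θ < μ k
  obtain ⟨κ, hκ, hκ2⟩ : ∃ κ, θ < κ ∧ ∀ k, θ < μ k → κ ≤ μ k :=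
    ((eventually_mem_nhdsWithin (a := θ) (s := Set.Ioi θ)).and (nhdsWithin_le_nhds
      (eventually_all.2 fun k => by
        by_cases h : θ < μ k
        · exact (eventually_le_nhds h).mono fun x hx _ => hx
        · exact Eventually.of_forall fun x hx => absurd hx h))).exists
  have h4 : ∀ D D', ∑ i, D i * (D' i / v i) = ⟪Pp D, Pp D'⟫ + ⟪Pm D, Pm D'⟫ := fun D D' => by
    rw [← r3, ← B.repr.inner_map_map]
    simp only [PiLp.inner_apply, hp, hm, RCLike.inner_apply, conj_trivial, ← sum_add_distrib]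
    exact sum_congr rfl fun k _ => by by_cases h : θ < μ k <;> simp [h]
  refine ⟨Pp, Pm, κ, hκ, fun D => ?_, fun D => ?_, fun D => ?_, h4⟩
  · rw [← real_inner_self_eq_norm_sq]
    simp only [PiLp.inner_apply, hp, RCLike.inner_apply, conj_trivial, mul_sum, hB]
    refine sum_le_sum fun k _ => ?_
    split_ifs with h
    · nlinarith [mul_self_nonneg (B.repr (R D) k), hκ2 k h]
    · simp
  · rw [← real_inner_self_eq_norm_sq]
    simp only [PiLp.inner_apply, hm, RCLike.inner_apply, conj_trivial, mul_sum, hB]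
    refine sum_le_sum fun k _ => ?_
    split_ifs with h
    · simp
    · nlinarith [mul_self_nonneg (B.repr (R D) k), not_lt.1 h]
  · refine (pi_norm_le_iff_of_nonneg (by positivity)).2 fun i => ?_
    have h1 := h4 D D
    rw [real_inner_self_eq_norm_sq, real_inner_self_eq_norm_sq] at h1
    have h2 : ∀ j, D j ^ 2 ≤ D j * (D j / v j) := fun j => by
      rw [← mul_div_assoc, ← pow_two]
      exact le_div_self (sq_nonneg _) (hv j) (hv1 j)
    have h3 := (h2 i).trans (single_le_sum (f := fun j => D j * (D j / v j))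
      (fun j _ => (sq_nonneg _).trans (h2 j)) (mem_univ i))
    refine abs_le.2 (abs_le_of_sq_le_sq' ?_ (by positivity))
    nlinarith [mul_nonneg (norm_nonneg (Pp D)) (norm_nonneg (Pm D))]

lemma key_num {K M c N β κ θ ε L S Λ Λ' a r d C X Y P Q Ez : ℝ} (hK : 0 < K) (hM : 1 ≤ M)
    (hc : 0 ≤ c) (hβ : 0 < β) (hθ : 0 ≤ θ) (hε : 0 ≤ ε) (hL : 0 ≤ L) (hN : 0 ≤ N) (hS : 0 < S)
    (a0 : 0 < a) (h3 : d ≤ a + r) (b1 : -(c * (ε * d)) ≤ S * X - P) (b2 : S * Y - Q ≤ c * (ε * d))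
    (b3 : κ * a ≤ P) (b4 : Q ≤ θ * r) (hE : S * Ez ≤ L * d) (hΛ : 0 ≤ Λ)
    (hΛ' : S * (Λ' - Λ) ≤ θ * Λ) (hW : Λ ≤ K * a - r)
    (hcond : (1 + K) * ((K + 1) * c * ε + c ^ 2 * N * L / M + β * C ^ 2 * N * L) ≤ K * (κ - θ)) :
    β * (Λ' - Λ) - β * (K * X - Y - c ^ 2 * N / M * Ez) + β ^ 2 * C ^ 2 * N * Ez ≤ 0 := by
  have b5 : d ≤ (1 + K) * a := by linarith
  have b6 := mul_le_mul_of_nonneg_left b5 (show 0 ≤ (K + 1) * c * ε + c ^ 2 * N * L / M +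
    β * C ^ 2 * N * L by positivity)
  have b7 := mul_le_mul_of_nonneg_right hcond a0.le
  have b8 := mul_le_mul_of_nonneg_left hE (show 0 ≤ c ^ 2 * N / M + β * C ^ 2 * N by positivity)
  have b9 := mul_le_mul_of_nonneg_left hW hθ
  have b10 := mul_le_mul_of_nonneg_left b3 hK.le
  have b11 := mul_le_mul_of_nonneg_left b1 hK.le
  have b12 : S * ((Λ' - Λ) - (K * X - Y - c ^ 2 * N / M * Ez) + β * C ^ 2 * N * Ez) ≤ 0 := by
    have : c ^ 2 * N * L / M = c ^ 2 * N / M * L := by ring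
    rw [this] at b6 b7
    linarith
  have b13 := mul_nonpos_of_nonneg_of_nonpos hβ.le (nonpos_of_mul_nonpos_right b12 hS)
  linarith

section drift
variable {F H : Type*} [NormedAddCommGroup F] [NormedSpace ℝ F] [NormedAddCommGroup H]
  [InnerProductSpace ℝ H]

/-- Cone function. -/
noncomputable def Wf (Pp Pm : F →L[ℝ] H) (K M : ℝ) (D : F) : ℝ :=
  K * ‖Pp D‖ - √(‖Pm D‖ ^ 2 + M ^ 2)

lemma drift {Ω : Type*} [Fintype Ω] (Pp Pm : F →L[ℝ] H) {K M c N β κ θ ε L S Λ Λ' : ℝ}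
    (k : Ω → ℝ) (hk : ∀ ω, 0 ≤ k ω) (hk1 : ∑ ω, k ω = 1) (Δ : Ω → F) (z : Ω → ℝ)
    (hz : ∀ ω, ‖Δ ω‖ ≤ z ω ∧ z ω ≤ N) (D AD : F) (hK : 0 < K) (hM : 1 ≤ M) (hc : 0 ≤ c)
    (cp : ‖Pp‖ ≤ c) (cm : ‖Pm‖ ≤ c) (hβ : 0 < β) (hβ1 : β * ((K * c + c + c ^ 2 * N) * N) ≤ 1)
    (hθ : 0 ≤ θ) (hε : 0 ≤ ε) (hL : 0 ≤ L) (hN : 0 ≤ N) (hS : 0 < S)
    (h1 : κ * ‖Pp D‖ ^ 2 ≤ ⟪Pp D, Pp AD⟫) (h2 : ⟪Pm D, Pm AD⟫ ≤ θ * ‖Pm D‖ ^ 2)
    (h3 : ‖D‖ ≤ ‖Pp D‖ + ‖Pm D‖) (hm : ‖S • ∑ ω, k ω • Δ ω - AD‖ ≤ ε * ‖D‖)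
    (hE : S * ∑ ω, k ω * z ω ≤ L * ‖D‖) (hΛ : 0 ≤ Λ) (hΛ' : S * (Λ' - Λ) ≤ θ * Λ)
    (hW : Λ ≤ Wf Pp Pm K M D)
    (hcond : (1 + K) * ((K + 1) * c * ε + c ^ 2 * N * L / M +
      β * (K * c + c + c ^ 2 * N) ^ 2 * N * L) ≤ K * (κ - θ)) :
    ∑ ω, k ω * Real.exp (-β * (Wf Pp Pm K M (D + Δ ω) - Λ')) ≤
      Real.exp (-β * (Wf Pp Pm K M D - Λ)) := by
  set u := Pp D
  set m := Pm D
  set a := ‖u‖ with ha
  set r := √(‖m‖ ^ 2 + M ^ 2) with hr
  set C := K * c + c + c ^ 2 * N with hC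
  have r2 : r ^ 2 = ‖m‖ ^ 2 + M ^ 2 := Real.sq_sqrt (by positivity)
  have rM : M ≤ r := Real.le_sqrt_of_sq_le (by nlinarith [sq_nonneg ‖m‖])
  have rm : ‖m‖ ≤ r := Real.le_sqrt_of_sq_le (by nlinarith [sq_nonneg M])
  have r0 : 0 < r := by linarith
  have hWd : Wf Pp Pm K M D = K * a - r := rfl
  have a0 : 0 < a := (mul_pos_iff_of_pos_left hK).1 (by linarith)
  have ip : ∀ X : F, |⟪u, Pp X⟫ / a| ≤ c * ‖X‖ := fun X => by
    rw [abs_div, abs_of_pos a0, div_le_iff₀ a0, mul_comm _ a]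
    exact (abs_real_inner_le_norm _ _).trans (mul_le_mul_of_nonneg_left
      (Pp.le_of_opNorm_le cp X) a0.le)
  have im : ∀ X : F, |⟪m, Pm X⟫ / r| ≤ c * ‖X‖ := fun X => by
    rw [abs_div, abs_of_pos r0, div_le_iff₀ r0, mul_comm _ r]
    exact (abs_real_inner_le_norm _ _).trans (mul_le_mul rm (Pm.le_of_opNorm_le cm X)
      (norm_nonneg _) r0.le)
  have z0 : ∀ ω, 0 ≤ z ω := fun ω => (norm_nonneg _).trans (hz ω).1
  set Y := fun ω => K * (⟪u, Pp (Δ ω)⟫ / a) - ⟪m, Pm (Δ ω)⟫ / r - c ^ 2 * N / M * z ω with hY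
  have y1 : ∀ ω, K * a - r + Y ω ≤ Wf Pp Pm K M (D + Δ ω) := fun ω => by
    have b1 : a + ⟪u, Pp (Δ ω)⟫ / a ≤ ‖Pp (D + Δ ω)‖ := by
      have := real_inner_le_norm u (Pp (D + Δ ω))
      rw [map_add, inner_add_right, real_inner_self_eq_norm_sq, ← map_add] at this
      rw [add_div' _ _ _ a0.ne', div_le_iff₀ a0]
      linarith
    have b2 : ‖Pm (Δ ω)‖ ^ 2 ≤ c ^ 2 * N * z ω := by
      have b3 := (Pm.le_of_opNorm_le cm (Δ ω)).trans (mul_le_mul_of_nonneg_left (hz ω).1 hc)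
      have b4 := pow_le_pow_left₀ (norm_nonneg _) b3 2
      have b5 := mul_le_mul_of_nonneg_left (hz ω).2 (mul_nonneg (sq_nonneg c) (z0 ω))
      linarith
    have b3 : √(‖Pm (D + Δ ω)‖ ^ 2 + M ^ 2) ≤ r + ⟪m, Pm (Δ ω)⟫ / r + c ^ 2 * N / M * z ω := by
      have b4 := Real.sq_sqrt (show 0 ≤ ‖Pm (D + Δ ω)‖ ^ 2 + M ^ 2 by positivity)
      generalize √(‖Pm (D + Δ ω)‖ ^ 2 + M ^ 2) = r' at b4
      rw [map_add, norm_add_sq_real] at b4
      have b5 : c ^ 2 * N * z ω ≤ c ^ 2 * N / M * z ω * r := by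
        have b6 : 0 ≤ c ^ 2 * N / M * z ω := by have := z0 ω; positivity
        have b7 := mul_le_mul_of_nonneg_left rM b6
        have b8 : c ^ 2 * N / M * z ω * M = c ^ 2 * N * z ω := by field_simp
        linarith
      have b6 : ⟪m, Pm (Δ ω)⟫ / r * r = ⟪m, Pm (Δ ω)⟫ := by field_simp
      refine le_of_mul_le_mul_right ?_ r0
      nlinarith [sq_nonneg (r' - r), sq_nonneg ‖Pm (Δ ω)‖]
    have := mul_le_mul_of_nonneg_left b1 hK.le
    simp only [Wf, hY]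
    linarith
  have y2 : ∀ ω, |Y ω| ≤ C * z ω := fun ω => by
    have b1 := abs_le.1 ((ip (Δ ω)).trans (mul_le_mul_of_nonneg_left (hz ω).1 hc))
    have b2 := abs_le.1 ((im (Δ ω)).trans (mul_le_mul_of_nonneg_left (hz ω).1 hc))
    have b3 := mul_le_mul_of_nonneg_left b1.1 hK.le
    have b4 := mul_le_mul_of_nonneg_left b1.2 hK.le
    have b5 : c ^ 2 * N / M * z ω ≤ c ^ 2 * N * z ω :=
      mul_le_mul_of_nonneg_right (div_le_self (by positivity) hM) (z0 ω)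
    have b6 : 0 ≤ c ^ 2 * N / M * z ω := by have := z0 ω; positivity
    simp only [hY, hC]
    rw [abs_le]
    constructor <;> linarith [b2.1, b2.2]
  have C0 : 0 ≤ C := by positivity
  have y3 : ∀ ω, Real.exp (-β * Y ω) ≤ 1 - β * Y ω + β ^ 2 * C ^ 2 * N * z ω := fun ω => by
    have b1 : |-β * Y ω| ≤ β * (C * z ω) := by
      rw [abs_mul, abs_neg, abs_of_pos hβ]; exact mul_le_mul_of_nonneg_left (y2 ω) hβ.le
    have b2 := (abs_le.1 (Real.abs_exp_sub_one_sub_id_le (b1.trans ((mul_le_mul_of_nonneg_left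
      (mul_le_mul_of_nonneg_left (hz ω).2 C0) hβ.le).trans hβ1)))).2
    have b3 := pow_le_pow_left₀ (abs_nonneg _) b1 2
    rw [sq_abs] at b3
    have b4 := mul_le_mul_of_nonneg_left (hz ω).2
      (show 0 ≤ β ^ 2 * C ^ 2 * z ω by have := z0 ω; positivity)
    linarith
  set mm := ∑ ω, k ω • Δ ω with hmm
  set Ez := ∑ ω, k ω * z ω with hEz
  have eY : ∑ ω, k ω * Y ω = K * (⟪u, Pp mm⟫ / a) - ⟪m, Pm mm⟫ / r - c ^ 2 * N / M * Ez := by
    simp only [hY, hmm, hEz, map_sum, map_smul, inner_sum, inner_smul_right, sum_div, mul_sum,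
      ← sum_sub_distrib]
    exact sum_congr rfl fun ω _ => by ring
  have key : β * (Λ' - Λ) - β * ∑ ω, k ω * Y ω + β ^ 2 * C ^ 2 * N * Ez ≤ 0 := by
    have b1 := abs_le.1 ((ip _).trans (mul_le_mul_of_nonneg_left hm hc))
    have b2 := abs_le.1 ((im _).trans (mul_le_mul_of_nonneg_left hm hc))
    rw [map_sub, map_smul, inner_sub_right, inner_smul_right, sub_div, mul_div_assoc] at b1 b2
    have b3 : κ * a ≤ ⟪u, Pp AD⟫ / a := by rw [le_div_iff₀ a0]; linarith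
    have b4 : ⟪m, Pm AD⟫ / r ≤ θ * r := by
      rw [div_le_iff₀ r0, mul_assoc, ← pow_two, r2]
      exact h2.trans (mul_le_mul_of_nonneg_left (le_add_of_nonneg_right (sq_nonneg M)) hθ)
    rw [eY]
    exact key_num hK hM hc hβ hθ hε hL hN hS a0 (h3.trans (add_le_add le_rfl rm)) b1.1 b2.2 b3 b4
      hE hΛ hΛ' (hW.trans hWd.le) hcond
  calc _ ≤ ∑ ω, k ω * (Real.exp (-β * (K * a - r - Λ')) *
          (1 - β * Y ω + β ^ 2 * C ^ 2 * N * z ω)) := by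
        refine sum_le_sum fun ω _ => mul_le_mul_of_nonneg_left ?_ (hk ω)
        refine le_trans ?_ (mul_le_mul_of_nonneg_left (y3 ω) (Real.exp_pos _).le)
        rw [← Real.exp_add, Real.exp_le_exp]
        nlinarith [mul_le_mul_of_nonneg_left (y1 ω) hβ.le]
    _ = Real.exp (-β * (K * a - r - Λ')) *
          (1 - β * ∑ ω, k ω * Y ω + β ^ 2 * C ^ 2 * N * Ez) := by
        have : (1 - β * ∑ ω, k ω * Y ω + β ^ 2 * C ^ 2 * N * Ez) =
            ∑ ω, (k ω - β * (k ω * Y ω) + β ^ 2 * C ^ 2 * N * (k ω * z ω)) := by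
          rw [sum_add_distrib, sum_sub_distrib, ← mul_sum, ← mul_sum, hk1]
        rw [this, mul_sum]
        exact sum_congr rfl fun ω _ => by ring
    _ ≤ Real.exp (-β * (K * a - r - Λ')) *
          Real.exp (-β * ∑ ω, k ω * Y ω + β ^ 2 * C ^ 2 * N * Ez) :=
        mul_le_mul_of_nonneg_left (le_trans (le_of_eq (by ring)) (Real.add_one_le_exp _))
          (Real.exp_pos _).le
    _ ≤ _ := by rw [← Real.exp_add, Real.exp_le_exp, hWd]; linarith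

end drift

end Pool.Agent.H.MP_cd93fa_pr
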